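import Pool.Agent.Helper61.LE.Prob

/-!
# The (asymmetric) Lovász local lemma on finite product spaces
-/

set_option autoImplicit false
set_option linter.unusedSectionVars false

namespace Pool.Agent.Helper61.LE

open Finset

variable {ι Ω : Type*} [Fintype ι] [DecidableEq ι] [Fintype Ω] [DecidableEq Ω]
variable {μ : ι → Ω → ℝ}

/-- none of the events in `T` happens -/
def Avoid {κ : Type*} (A : κ → (ι → Ω) → Prop) (T : Finset κ) (ω : ι → Ω) : Prop :=
  ∀ j ∈ T, ¬ A j ω

theorem dep_avoid {κ : Type*} [DecidableEq κ] {A : κ → (ι → Ω) → Prop} {S : κ → Finset ι}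
    {T : Finset κ} (h : ∀ j ∈ T, Dep (A j) (S j)) : Dep (Avoid A T) (T.biUnion S) := by
  intro ω ω' hω
  unfold Avoid
  apply propext
  refine forall₂_congr fun j hj => ?_
  rw [h j hj ω ω' (fun i hi => hω i (Finset.mem_biUnion.2 ⟨j, hj, hi⟩))]

/-- Local lemma: if the events `A j`, `j ∈ J`, depend on the coordinates `S j`, each has probability
at most `1/4`, and the probabilities of the events whose coordinate sets meet `S i` add up to at
most `1/4`, then all events can be avoided. -/
theorem lll (h : IsProb μ) {κ : Type*} [DecidableEq κ] (J : Finset κ)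
    (A : κ → (ι → Ω) → Prop) (S : κ → Finset ι) (hdep : ∀ j ∈ J, Dep (A j) (S j))
    (hself : ∀ j ∈ J, PP μ (A j) ≤ 1 / 4)
    (hsum : ∀ i ∈ J, ∑ j ∈ J.filter (fun j => ¬ Disjoint (S i) (S j)), PP μ (A j) ≤ 1 / 4) :
    ∃ ω, (∀ i, μ i (ω i) ≠ 0) ∧ ∀ j ∈ J, ¬ A j ω := by
  classical
  have key : ∀ T : Finset κ, T ⊆ J →
      (∀ i ∈ J, i ∉ T → PP μ (fun ω => A i ω ∧ Avoid A T ω) ≤ 2 * PP μ (A i) * PP μ (Avoid A T)) ∧
        0 < PP μ (Avoid A T) := by
    intro T
    induction T using Finset.strongInduction with
    | H T ih =>
      intro hTJ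
      refine ⟨?_, ?_⟩
      · intro i hi hiT
        set T₁ := T.filter (fun j => ¬ Disjoint (S i) (S j)) with hT₁
        set T₂ := T.filter (fun j => Disjoint (S i) (S j)) with hT₂
        have hT₂T : T₂ ⊆ T := Finset.filter_subset _ _
        have hstep1 : PP μ (fun ω => A i ω ∧ Avoid A T ω) ≤ PP μ (A i) * PP μ (Avoid A T₂) := by
          rw [← PP_and_of_disjoint h (hdep i hi)
            (dep_avoid (fun j hj => hdep j (hTJ (hT₂T hj))))]
          · refine PP_mono h fun ω hω => ⟨hω.1, fun j hj => hω.2 j (hT₂T hj)⟩
          · rw [Finset.disjoint_biUnion_right]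
            intro j hj
            exact (Finset.mem_filter.1 hj).2
        have hstep2 : PP μ (Avoid A T₂) ≤ 2 * PP μ (Avoid A T) := by
          by_cases hne : T₁ = ∅
          · have : T₂ = T := by
              apply Finset.Subset.antisymm hT₂T
              intro j hj
              rw [hT₂, Finset.mem_filter]
              refine ⟨hj, ?_⟩
              by_contra hcon
              have : j ∈ T₁ := Finset.mem_filter.2 ⟨hj, hcon⟩
              rw [hne] at this
              exact absurd this (by simp)
            rw [this]
            have := PP_nonneg h (Avoid A T)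
            linarith
          · obtain ⟨j₀, hj₀⟩ := Finset.nonempty_iff_ne_empty.2 hne
            have hssub : T₂ ⊂ T := by
              refine ⟨hT₂T, fun hcon => ?_⟩
              have h1 := hcon (Finset.mem_filter.1 hj₀).1
              exact (Finset.mem_filter.1 hj₀).2 (Finset.mem_filter.1 h1).2
            have ih2 := ih T₂ hssub (hT₂T.trans hTJ)
            have hbound : PP μ (Avoid A T₂) ≤ PP μ (Avoid A T) +
                ∑ j ∈ T₁, PP μ (fun ω => A j ω ∧ Avoid A T₂ ω) := by
              calc PP μ (Avoid A T₂) ≤ PP μ (Avoid A T) +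
                    PP μ (fun ω => ∃ j ∈ T₁, A j ω ∧ Avoid A T₂ ω) := by
                    rw [PP_split (μ := μ) (Avoid A T₂) (Avoid A T)]
                    refine add_le_add (PP_mono h fun ω hω => hω.2) (PP_mono h fun ω hω => ?_)
                    obtain ⟨h1, h2⟩ := hω
                    unfold Avoid at h2
                    push Not at h2
                    obtain ⟨j, hj, hA⟩ := h2
                    refine ⟨j, ?_, hA, h1⟩
                    rw [hT₁, Finset.mem_filter]
                    refine ⟨hj, fun hd => ?_⟩
                    exact h1 j (Finset.mem_filter.2 ⟨hj, hd⟩) hA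
                _ ≤ _ := by
                    have := PP_exists_le h T₁ (fun j ω => A j ω ∧ Avoid A T₂ ω)
                    linarith
            have hbound2 : ∑ j ∈ T₁, PP μ (fun ω => A j ω ∧ Avoid A T₂ ω) ≤
                (1 / 2) * PP μ (Avoid A T₂) := by
              calc ∑ j ∈ T₁, PP μ (fun ω => A j ω ∧ Avoid A T₂ ω)
                  ≤ ∑ j ∈ T₁, 2 * PP μ (A j) * PP μ (Avoid A T₂) := by
                    refine Finset.sum_le_sum fun j hj => ?_
                    have hjT := (Finset.mem_filter.1 hj).1
                    refine ih2.1 j (hTJ hjT) fun hcon => ?_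
                    exact (Finset.mem_filter.1 hj).2 (Finset.mem_filter.1 hcon).2
                _ = 2 * (∑ j ∈ T₁, PP μ (A j)) * PP μ (Avoid A T₂) := by
                    rw [Finset.mul_sum, Finset.sum_mul]
                _ ≤ (1 / 2) * PP μ (Avoid A T₂) := by
                    apply mul_le_mul_of_nonneg_right _ (PP_nonneg h _)
                    have h1 : ∑ j ∈ T₁, PP μ (A j) ≤ 1 / 4 := by
                      refine le_trans ?_ (hsum i hi)
                      apply Finset.sum_le_sum_of_subset_of_nonneg
                      · intro j hj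
                        rw [Finset.mem_filter] at hj ⊢
                        exact ⟨hTJ hj.1, hj.2⟩
                      · intro j _ _
                        exact PP_nonneg h _
                    linarith
            linarith
        calc PP μ (fun ω => A i ω ∧ Avoid A T ω) ≤ PP μ (A i) * PP μ (Avoid A T₂) := hstep1
          _ ≤ PP μ (A i) * (2 * PP μ (Avoid A T)) :=
              mul_le_mul_of_nonneg_left hstep2 (PP_nonneg h _)
          _ = _ := by ring
      · by_cases hne : T = ∅
        · subst hne
          have : PP μ (Avoid A (∅ : Finset κ)) = 1 := by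
            rw [← PP_true h]
            exact PP_congr fun ω => by simp [Avoid]
          rw [this]
          norm_num
        · obtain ⟨i, hi⟩ := Finset.nonempty_iff_ne_empty.2 hne
          have hssub : T.erase i ⊂ T := Finset.erase_ssubset hi
          have ih2 := ih (T.erase i) hssub (hssub.1.trans hTJ)
          have h1 := ih2.1 i (hTJ hi) (Finset.notMem_erase i T)
          have h2 := hself i (hTJ hi)
          have h3 : PP μ (Avoid A (T.erase i)) = PP μ (fun ω => A i ω ∧ Avoid A (T.erase i) ω) +
              PP μ (Avoid A T) := by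
            rw [PP_split (μ := μ) (Avoid A (T.erase i)) (A i)]
            congr 1
            · exact PP_congr fun ω => and_comm
            · refine PP_congr fun ω => ?_
              constructor
              · rintro ⟨ha, hb⟩ j hj
                by_cases hji : j = i
                · rw [hji]
                  exact hb
                · exact ha j (Finset.mem_erase.2 ⟨hji, hj⟩)
              · intro ha
                exact ⟨fun j hj => ha j (Finset.mem_of_mem_erase hj), ha i hi⟩
          have h4 := ih2.2
          have h5 : 2 * PP μ (A i) * PP μ (Avoid A (T.erase i)) ≤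
              (1 / 2) * PP μ (Avoid A (T.erase i)) := by
            apply mul_le_mul_of_nonneg_right _ h4.le
            linarith
          linarith
  obtain ⟨ω, hω⟩ := exists_of_PP_pos (key J (Finset.Subset.refl J)).2
  exact ⟨ω, hω⟩

/-- Local lemma, in the form used below: the hypothesis is a bound on the total probability of the
events containing a given coordinate. -/
theorem lll' (h : IsProb μ) {κ : Type*} [DecidableEq κ] (J : Finset κ)
    (A : κ → (ι → Ω) → Prop) (S : κ → Finset ι) (hdep : ∀ j ∈ J, Dep (A j) (S j))
    (hself : ∀ j ∈ J, PP μ (A j) ≤ 1 / 4)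
    (hsum : ∀ i ∈ J, ∑ x ∈ S i, ∑ j ∈ J.filter (fun j => x ∈ S j), PP μ (A j) ≤ 1 / 4) :
    ∃ ω, (∀ i, μ i (ω i) ≠ 0) ∧ ∀ j ∈ J, ¬ A j ω := by
  classical
  refine lll h J A S hdep hself fun i hi => ?_
  refine le_trans ?_ (hsum i hi)
  simp only [Finset.sum_filter]
  rw [Finset.sum_comm]
  refine Finset.sum_le_sum fun j _ => ?_
  have hnn : ∀ y ∈ S i, 0 ≤ (fun x => if x ∈ S j then PP μ (A j) else 0) y := by
    intro y _
    dsimp only
    split_ifs
    · exact PP_nonneg h _
    · exact le_rfl
  by_cases hj : Disjoint (S i) (S j)
  · rw [if_neg (not_not.2 hj)]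
    exact Finset.sum_nonneg hnn
  · rw [if_pos hj]
    rw [Finset.not_disjoint_iff] at hj
    obtain ⟨x, hx1, hx2⟩ := hj
    calc PP μ (A j) = if x ∈ S j then PP μ (A j) else 0 := by simp [hx2]
      _ ≤ _ := Finset.single_le_sum hnn hx1

end Pool.Agent.Helper61.LE
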