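import Mathlib

/-!
# Finite product probability spaces

`EE μ f` is the expectation of `f : (ι → Ω) → ℝ` when the coordinates are independent, the
`i`-th one with weights `μ i : Ω → ℝ`. Independence, resampling, product events, a bounded
difference (Bernstein type) exponential moment inequality and Chernoff bounds.
-/

set_option autoImplicit false
set_option linter.unusedSectionVars false

namespace Pool.Agent.Helper61.LE

open Finset

section basic

variable {ι Ω : Type*} [Fintype ι] [DecidableEq ι] [Fintype Ω] [DecidableEq Ω]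

/-- The weight of a point. -/
def wt (μ : ι → Ω → ℝ) (ω : ι → Ω) : ℝ := ∏ i, μ i (ω i)

/-- The expectation. -/
def EE (μ : ι → Ω → ℝ) (f : (ι → Ω) → ℝ) : ℝ := ∑ ω, wt μ ω * f ω

/-- Coordinate weights are probability vectors. -/
structure IsProb (μ : ι → Ω → ℝ) : Prop where
  nonneg : ∀ i a, 0 ≤ μ i a
  sum_one : ∀ i, ∑ a, μ i a = 1

/-- `f` depends only on the coordinates in `S`. -/
def Dep {β : Type*} (f : (ι → Ω) → β) (S : Finset ι) : Prop :=
  ∀ ω ω' : ι → Ω, (∀ i ∈ S, ω i = ω' i) → f ω = f ω'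

open Classical in
/-- The probability of an event. -/
noncomputable def PP (μ : ι → Ω → ℝ) (A : (ι → Ω) → Prop) : ℝ :=
  EE μ (fun ω => if A ω then 1 else 0)

variable {μ : ι → Ω → ℝ}

theorem wt_nonneg (h : IsProb μ) (ω : ι → Ω) : 0 ≤ wt μ ω :=
  Finset.prod_nonneg fun i _ => h.nonneg i _

theorem sum_wt (h : IsProb μ) : ∑ ω, wt μ ω = 1 := by
  have := Finset.prod_univ_sum (fun _ : ι => (Finset.univ : Finset Ω)) (fun i a => μ i a)
  rw [Fintype.piFinset_univ] at this
  unfold wt
  rw [← this]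
  exact Finset.prod_eq_one fun i _ => h.sum_one i

/-- Expectation of a product of functions of single coordinates. -/
theorem EE_prod (g : ι → Ω → ℝ) :
    EE μ (fun ω => ∏ i, g i (ω i)) = ∏ i, ∑ a, μ i a * g i a := by
  have := Finset.prod_univ_sum (fun _ : ι => (Finset.univ : Finset Ω)) (fun i a => μ i a * g i a)
  rw [Fintype.piFinset_univ] at this
  rw [this]
  unfold EE wt
  exact Finset.sum_congr rfl fun ω _ => by rw [Finset.prod_mul_distrib]

theorem EE_mono (h : IsProb μ) {f g : (ι → Ω) → ℝ} (hfg : ∀ ω, f ω ≤ g ω) : EE μ f ≤ EE μ g :=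
  Finset.sum_le_sum fun ω _ => mul_le_mul_of_nonneg_left (hfg ω) (wt_nonneg h ω)

theorem EE_nonneg (h : IsProb μ) {f : (ι → Ω) → ℝ} (hf : ∀ ω, 0 ≤ f ω) : 0 ≤ EE μ f :=
  Finset.sum_nonneg fun ω _ => mul_nonneg (wt_nonneg h ω) (hf ω)

theorem EE_const (h : IsProb μ) (c : ℝ) : EE μ (fun _ => c) = c := by
  unfold EE
  rw [← Finset.sum_mul, sum_wt h, one_mul]

theorem EE_add (f g : (ι → Ω) → ℝ) : EE μ (fun ω => f ω + g ω) = EE μ f + EE μ g := by
  unfold EE
  rw [← Finset.sum_add_distrib]
  exact Finset.sum_congr rfl fun ω _ => by ring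

theorem EE_sub (f g : (ι → Ω) → ℝ) : EE μ (fun ω => f ω - g ω) = EE μ f - EE μ g := by
  unfold EE
  rw [← Finset.sum_sub_distrib]
  exact Finset.sum_congr rfl fun ω _ => by ring

theorem EE_neg (f : (ι → Ω) → ℝ) : EE μ (fun ω => - f ω) = - EE μ f := by
  unfold EE
  rw [← Finset.sum_neg_distrib]
  exact Finset.sum_congr rfl fun ω _ => by ring

theorem EE_const_mul (c : ℝ) (f : (ι → Ω) → ℝ) : EE μ (fun ω => c * f ω) = c * EE μ f := by
  unfold EE
  rw [Finset.mul_sum]
  exact Finset.sum_congr rfl fun ω _ => by ring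

theorem EE_mul_const (c : ℝ) (f : (ι → Ω) → ℝ) : EE μ (fun ω => f ω * c) = EE μ f * c := by
  unfold EE
  rw [Finset.sum_mul]
  exact Finset.sum_congr rfl fun ω _ => by ring

theorem EE_sum {κ : Type*} (s : Finset κ) (f : κ → (ι → Ω) → ℝ) :
    EE μ (fun ω => ∑ k ∈ s, f k ω) = ∑ k ∈ s, EE μ (f k) := by
  unfold EE
  rw [Finset.sum_comm]
  exact Finset.sum_congr rfl fun ω _ => by rw [Finset.mul_sum]

theorem EE_congr {f g : (ι → Ω) → ℝ} (hfg : ∀ ω, f ω = g ω) : EE μ f = EE μ g := by
  congr 1
  exact funext hfg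

/-! ### mixing two samples -/

/-- take the coordinates in `S` from `ω` and the others from `ω'` -/
def mix (S : Finset ι) (ω ω' : ι → Ω) : ι → Ω := fun i => if i ∈ S then ω i else ω' i

theorem mix_mem {S : Finset ι} {ω ω' : ι → Ω} {i : ι} (h : i ∈ S) : mix S ω ω' i = ω i := by
  simp [mix, h]

theorem mix_not_mem {S : Finset ι} {ω ω' : ι → Ω} {i : ι} (h : i ∉ S) : mix S ω ω' i = ω' i := by
  simp [mix, h]

theorem wt_mix (S : Finset ι) (ω ω' : ι → Ω) :
    wt μ (mix S ω ω') * wt μ (mix S ω' ω) = wt μ ω * wt μ ω' := by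
  unfold wt
  rw [← Finset.prod_mul_distrib, ← Finset.prod_mul_distrib]
  refine Finset.prod_congr rfl fun i _ => ?_
  by_cases h : i ∈ S
  · rw [mix_mem h, mix_mem h]
  · rw [mix_not_mem h, mix_not_mem h, mul_comm]

/-- the swap of the coordinates outside `S` -/
def mixEquiv (S : Finset ι) : (ι → Ω) × (ι → Ω) ≃ (ι → Ω) × (ι → Ω) where
  toFun p := (mix S p.1 p.2, mix S p.2 p.1)
  invFun p := (mix S p.1 p.2, mix S p.2 p.1)
  left_inv p := by
    ext i
    · by_cases h : i ∈ S <;> simp [mix, h]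
    · by_cases h : i ∈ S <;> simp [mix, h]
  right_inv p := by
    ext i
    · by_cases h : i ∈ S <;> simp [mix, h]
    · by_cases h : i ∈ S <;> simp [mix, h]

theorem sum_mix (S : Finset ι) (F : (ι → Ω) → (ι → Ω) → ℝ) :
    ∑ ω, ∑ ω', wt μ ω * wt μ ω' * F (mix S ω ω') (mix S ω' ω) =
      ∑ ω, ∑ ω', wt μ ω * wt μ ω' * F ω ω' := by
  rw [← Fintype.sum_prod_type', ← Fintype.sum_prod_type']
  refine Fintype.sum_equiv (mixEquiv S) _ _ fun p => ?_
  simp only [mixEquiv, Equiv.coe_fn_mk]
  rw [wt_mix]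

/-- two stage expectation -/
theorem EE_mix (h : IsProb μ) (S : Finset ι) (f : (ι → Ω) → ℝ) :
    EE μ (fun ω => EE μ (fun ω' => f (mix S ω ω'))) = EE μ f := by
  have h1 := sum_mix (μ := μ) S (fun τ _ => f τ)
  unfold EE
  simp only [Finset.mul_sum]
  calc ∑ ω, ∑ ω', wt μ ω * (wt μ ω' * f (mix S ω ω'))
      = ∑ ω, ∑ ω', wt μ ω * wt μ ω' * f (mix S ω ω') := by
        refine Finset.sum_congr rfl fun ω _ => Finset.sum_congr rfl fun ω' _ => by ring
    _ = ∑ ω, ∑ ω', wt μ ω * wt μ ω' * f ω := h1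
    _ = ∑ ω, wt μ ω * f ω := by
        refine Finset.sum_congr rfl fun ω _ => ?_
        rw [← Finset.sum_mul, ← Finset.mul_sum, sum_wt h, mul_one]

/-- independence -/
theorem EE_mul_of_disjoint (h : IsProb μ) {f g : (ι → Ω) → ℝ} {S T : Finset ι}
    (hf : Dep f S) (hg : Dep g T) (hST : Disjoint S T) :
    EE μ (fun ω => f ω * g ω) = EE μ f * EE μ g := by
  rw [← EE_mix h S (fun ω => f ω * g ω)]
  have : ∀ ω ω' : ι → Ω, f (mix S ω ω') * g (mix S ω ω') = f ω * g ω' := by
    intro ω ω'
    rw [hf (mix S ω ω') ω (fun i hi => mix_mem hi), hg (mix S ω ω') ω' (fun i hi =>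
      mix_not_mem (fun h' => Finset.disjoint_left.1 hST h' hi))]
  simp only [this]
  simp only [EE_const_mul, EE_mul_const]

/-- resampling one coordinate -/
theorem EE_resample (h : IsProb μ) (i : ι) (g : (ι → Ω) → ℝ) :
    EE μ (fun ω => ∑ a, μ i a * g (Function.update ω i a)) = EE μ g := by
  rw [← EE_mix h ({i}ᶜ) g]
  refine EE_congr fun ω => ?_
  -- the inner expectation only depends on the coordinate `i` of `ω'`
  have h1 : ∀ ω' : ι → Ω, mix ({i}ᶜ) ω ω' = Function.update ω i (ω' i) := by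
    intro ω'
    ext j
    by_cases hj : j = i
    · subst hj
      simp [mix]
    · simp [mix, hj]
  simp only [h1]
  have h2 : EE μ (fun ω' : ι → Ω => g (Function.update ω i (ω' i))) =
      ∑ a, g (Function.update ω i a) * EE μ (fun ω' => if ω' i = a then 1 else 0) := by
    have : ∀ ω' : ι → Ω, g (Function.update ω i (ω' i)) =
        ∑ a, g (Function.update ω i a) * (if ω' i = a then 1 else 0) := by
      intro ω'
      rw [Finset.sum_eq_single (ω' i)]
      · simp
      · intro b _ hb
        simp [Ne.symm hb]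
      · simp
    simp only [this]
    rw [EE_sum]
    refine Finset.sum_congr rfl fun a _ => ?_
    rw [EE_const_mul]
  rw [h2]
  refine Finset.sum_congr rfl fun a _ => ?_
  rw [mul_comm]
  congr 1
  have h3 : (fun ω' : ι → Ω => if ω' i = a then (1 : ℝ) else 0) =
      fun ω' => ∏ j, (if j = i then (if ω' j = a then (1 : ℝ) else 0) else 1) := by
    ext ω'
    rw [Finset.prod_eq_single i]
    · simp
    · intro b _ hb
      simp [hb]
    · simp
  rw [h3, EE_prod (fun j b => if j = i then (if b = a then (1 : ℝ) else 0) else 1)]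
  rw [Finset.prod_eq_single i]
  · simp
  · intro b _ hb
    simp [hb, h.sum_one]
  · simp

/-! ### probabilities -/

theorem PP_nonneg (h : IsProb μ) (A : (ι → Ω) → Prop) : 0 ≤ PP μ A := by
  classical
  exact EE_nonneg h fun ω => by split_ifs <;> norm_num

theorem PP_mono (h : IsProb μ) {A B : (ι → Ω) → Prop} (hAB : ∀ ω, A ω → B ω) :
    PP μ A ≤ PP μ B := by
  classical
  refine EE_mono h fun ω => ?_
  by_cases hA : A ω
  · simp [hA, hAB ω hA]
  · simp only [hA, if_false]
    split_ifs <;> norm_num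

theorem PP_true (h : IsProb μ) : PP μ (fun _ => True) = 1 := by
  classical
  unfold PP
  simp [EE_const h]

theorem PP_le_one (h : IsProb μ) (A : (ι → Ω) → Prop) : PP μ A ≤ 1 := by
  rw [← PP_true h]
  exact PP_mono h fun _ _ => trivial

theorem PP_congr {A B : (ι → Ω) → Prop} (hAB : ∀ ω, A ω ↔ B ω) : PP μ A = PP μ B := by
  congr 1
  ext ω
  exact hAB ω

theorem PP_and_of_disjoint (h : IsProb μ) {A B : (ι → Ω) → Prop} {S T : Finset ι}
    (hA : Dep A S) (hB : Dep B T) (hST : Disjoint S T) :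
    PP μ (fun ω => A ω ∧ B ω) = PP μ A * PP μ B := by
  classical
  unfold PP
  rw [← EE_mul_of_disjoint h (S := S) (T := T) ?_ ?_ hST]
  · refine EE_congr fun ω => ?_
    by_cases hA' : A ω <;> by_cases hB' : B ω <;> simp [hA', hB']
  · intro ω ω' hω
    simp only [hA ω ω' hω]
  · intro ω ω' hω
    simp only [hB ω ω' hω]

theorem PP_split (A B : (ι → Ω) → Prop) :
    PP μ A = PP μ (fun ω => A ω ∧ B ω) + PP μ (fun ω => A ω ∧ ¬ B ω) := by
  classical
  unfold PP
  rw [← EE_add]
  refine EE_congr fun ω => ?_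
  by_cases hA' : A ω <;> by_cases hB' : B ω <;> simp [hA', hB']

theorem exists_of_PP_pos {A : (ι → Ω) → Prop} (hA : 0 < PP μ A) :
    ∃ ω, (∀ i, μ i (ω i) ≠ 0) ∧ A ω := by
  classical
  by_contra hcon
  push Not at hcon
  unfold PP EE at hA
  have : ∑ ω, wt μ ω * (if A ω then (1 : ℝ) else 0) = 0 := by
    refine Finset.sum_eq_zero fun ω _ => ?_
    by_cases h : ∀ i, μ i (ω i) ≠ 0
    · rw [if_neg (hcon ω h), mul_zero]
    · push Not at h
      obtain ⟨i, hi⟩ := h
      unfold wt
      rw [Finset.prod_eq_zero (Finset.mem_univ i) hi, zero_mul]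
  rw [this] at hA
  exact absurd hA (lt_irrefl _)

theorem PP_exists_le (h : IsProb μ) {κ : Type*} (s : Finset κ) (A : κ → (ι → Ω) → Prop) :
    PP μ (fun ω => ∃ k ∈ s, A k ω) ≤ ∑ k ∈ s, PP μ (A k) := by
  classical
  unfold PP
  rw [← EE_sum]
  refine EE_mono h fun ω => ?_
  split_ifs with hex
  · obtain ⟨k, hk, hAk⟩ := hex
    calc (1 : ℝ) = if A k ω then 1 else 0 := by simp [hAk]
      _ ≤ ∑ k ∈ s, if A k ω then 1 else 0 :=
        Finset.single_le_sum (f := fun k => if A k ω then (1 : ℝ) else 0)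
          (fun k _ => by split_ifs <;> norm_num) hk
  · exact Finset.sum_nonneg fun k _ => by split_ifs <;> norm_num

/-- Chernoff bound -/
theorem PP_ge_le_exp (h : IsProb μ) (f : (ι → Ω) → ℝ) (t l : ℝ) (hl : 0 ≤ l) :
    PP μ (fun ω => t ≤ f ω) ≤ Real.exp (-(l * t)) * EE μ (fun ω => Real.exp (l * f ω)) := by
  classical
  unfold PP
  rw [← EE_const_mul]
  refine EE_mono h fun ω => ?_
  rw [← Real.exp_add]
  split_ifs with ht
  · apply Real.one_le_exp
    nlinarith
  · exact (Real.exp_pos _).le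

end basic

section mgf

variable {ι Ω : Type*} [Fintype ι] [DecidableEq ι] [Fintype Ω] [DecidableEq Ω]
variable {μ : ι → Ω → ℝ}

/-- exponential moment of a bounded variable on one coordinate -/
theorem one_coord {Y m : Ω → ℝ} (hm : ∀ a, 0 ≤ m a) (hm1 : ∑ a, m a = 1) (N : Ω → Prop)
    [DecidablePred N] {c p l : ℝ} (hl : 0 ≤ l) (hlc : l * c ≤ 1)
    (hc : ∀ a b, |Y a - Y b| ≤ c) (hN : ∀ a b, N a → N b → Y a = Y b)
    (hp : ∑ a, (if N a then 0 else m a) ≤ p) :
    ∑ a, m a * Real.exp (l * Y a) ≤ Real.exp (l * (∑ a, m a * Y a) + l ^ 2 * (p * c ^ 2)) := by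
  classical
  set E := ∑ a, m a * Y a with hE
  -- nonempty
  obtain ⟨a₁, _⟩ : ∃ a₁ : Ω, True := by
    by_contra hcon
    push Not at hcon
    have : (∑ a, m a) = 0 := Finset.sum_eq_zero fun a _ => (hcon a).elim
    rw [hm1] at this
    norm_num at this
  have hc0 : 0 ≤ c := le_trans (abs_nonneg _) (hc a₁ a₁)
  obtain ⟨a₀, ha₀⟩ : ∃ a₀ : Ω, ∀ a, N a → Y a = Y a₀ := by
    by_cases h : ∃ a₀, N a₀
    · obtain ⟨a₀, h₀⟩ := h
      exact ⟨a₀, fun a ha => hN a a₀ ha h₀⟩
    · push Not at h
      exact ⟨a₁, fun a ha => absurd ha (h a)⟩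
  -- deviation bounded by c
  have hdev : ∀ a, |Y a - E| ≤ c := by
    intro a
    have : Y a - E = ∑ b, m b * (Y a - Y b) := by
      rw [hE]
      simp only [mul_sub]
      rw [Finset.sum_sub_distrib, ← Finset.sum_mul, hm1, one_mul]
    rw [this]
    calc |∑ b, m b * (Y a - Y b)| ≤ ∑ b, |m b * (Y a - Y b)| := Finset.abs_sum_le_sum_abs _ _
      _ ≤ ∑ b, m b * c := by
        refine Finset.sum_le_sum fun b _ => ?_
        rw [abs_mul, abs_of_nonneg (hm b)]
        exact mul_le_mul_of_nonneg_left (hc a b) (hm b)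
      _ = c := by rw [← Finset.sum_mul, hm1, one_mul]
  -- variance
  have hvar : ∑ a, m a * (Y a - E) ^ 2 ≤ p * c ^ 2 := by
    have h1 : ∑ a, m a * (Y a - E) ^ 2 = ∑ a, m a * (Y a - Y a₀) ^ 2 - (E - Y a₀) ^ 2 := by
      have e1 : ∀ a, m a * (Y a - E) ^ 2 = m a * (Y a - Y a₀) ^ 2 -
          2 * (E - Y a₀) * (m a * Y a) + m a * (E ^ 2 - (Y a₀) ^ 2) := by
        intro a
        ring
      simp only [e1]
      rw [Finset.sum_add_distrib, Finset.sum_sub_distrib, ← Finset.mul_sum, ← Finset.sum_mul, hm1,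
        ← hE]
      ring
    rw [h1]
    have h2 : ∑ a, m a * (Y a - Y a₀) ^ 2 ≤ ∑ a, (if N a then 0 else m a) * c ^ 2 := by
      refine Finset.sum_le_sum fun a _ => ?_
      split_ifs with hNa
      · rw [ha₀ a hNa]
        simp
      · apply mul_le_mul_of_nonneg_left _ (hm a)
        rw [← sq_abs (Y a - Y a₀)]
        exact pow_le_pow_left₀ (abs_nonneg _) (hc a a₀) 2
    rw [← Finset.sum_mul] at h2
    have h3 : (∑ a, (if N a then 0 else m a)) * c ^ 2 ≤ p * c ^ 2 :=
      mul_le_mul_of_nonneg_right hp (sq_nonneg c)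
    nlinarith [sq_nonneg (E - Y a₀)]
  -- main inequality
  have hexp : ∀ a, Real.exp (l * (Y a - E)) ≤ 1 + l * (Y a - E) + (l * (Y a - E)) ^ 2 := by
    intro a
    have hx : |l * (Y a - E)| ≤ 1 := by
      rw [abs_mul, abs_of_nonneg hl]
      exact (mul_le_mul_of_nonneg_left (hdev a) hl).trans hlc
    have := Real.abs_exp_sub_one_sub_id_le hx
    rw [abs_le] at this
    linarith [this.2]
  have hsum : ∑ a, m a * Real.exp (l * (Y a - E)) ≤ 1 + l ^ 2 * (p * c ^ 2) := by
    calc ∑ a, m a * Real.exp (l * (Y a - E))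
        ≤ ∑ a, m a * (1 + l * (Y a - E) + (l * (Y a - E)) ^ 2) :=
          Finset.sum_le_sum fun a _ => mul_le_mul_of_nonneg_left (hexp a) (hm a)
      _ = ∑ a, (m a + l * (m a * Y a) - l * E * m a + l ^ 2 * (m a * (Y a - E) ^ 2)) :=
          Finset.sum_congr rfl fun a _ => by ring
      _ = 1 + l ^ 2 * ∑ a, m a * (Y a - E) ^ 2 := by
          rw [Finset.sum_add_distrib, Finset.sum_sub_distrib, Finset.sum_add_distrib,
            ← Finset.mul_sum, ← Finset.mul_sum, ← Finset.mul_sum, hm1, ← hE]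
          ring
      _ ≤ 1 + l ^ 2 * (p * c ^ 2) := by
          have := mul_le_mul_of_nonneg_left hvar (sq_nonneg l)
          linarith
  calc ∑ a, m a * Real.exp (l * Y a)
      = Real.exp (l * E) * ∑ a, m a * Real.exp (l * (Y a - E)) := by
        rw [Finset.mul_sum]
        refine Finset.sum_congr rfl fun a _ => ?_
        rw [show l * Y a = l * E + l * (Y a - E) by ring, Real.exp_add]
        ring
    _ ≤ Real.exp (l * E) * (1 + l ^ 2 * (p * c ^ 2)) :=
        mul_le_mul_of_nonneg_left hsum (Real.exp_pos _).le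
    _ ≤ Real.exp (l * E) * Real.exp (l ^ 2 * (p * c ^ 2)) := by
        apply mul_le_mul_of_nonneg_left _ (Real.exp_pos _).le
        have := Real.add_one_le_exp (l ^ 2 * (p * c ^ 2))
        linarith
    _ = Real.exp (l * E + l ^ 2 * (p * c ^ 2)) := by rw [Real.exp_add]

/-- Exponential moments of a function of independent coordinates with bounded differences `c i`
that does not react to changes of the coordinate `i` within a set `N i` of probability at least
`1 - p i`. -/
theorem mgf (h : IsProb μ) (c p : ι → ℝ) {l : ℝ} (hl : 0 ≤ l) (N : ι → Ω → Prop)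
    [∀ i, DecidablePred (N i)] (S : Finset ι) :
    ∀ f : (ι → Ω) → ℝ, Dep f S → (∀ i ∈ S, l * c i ≤ 1) →
      (∀ i ∈ S, ∀ ω a b, |f (Function.update ω i a) - f (Function.update ω i b)| ≤ c i) →
      (∀ i ∈ S, ∀ ω a b, N i a → N i b → f (Function.update ω i a) = f (Function.update ω i b)) →
      (∀ i ∈ S, ∑ a, (if N i a then 0 else μ i a) ≤ p i) →
      EE μ (fun ω => Real.exp (l * f ω)) ≤
        Real.exp (l * EE μ f + l ^ 2 * ∑ i ∈ S, p i * c i ^ 2) := by
  classical
  induction S using Finset.induction_on with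
  | empty =>
    intro f hf _ _ _ _
    have : ∀ ω ω', f ω = f ω' := fun ω ω' => hf ω ω' (by simp)
    by_cases hne : Nonempty (ι → Ω)
    · obtain ⟨ω₀⟩ := hne
      have h1 : f = fun _ => f ω₀ := funext fun ω => this ω ω₀
      rw [h1]
      simp only [EE_const h]
      simp
    · have h1 : EE μ (fun ω => Real.exp (l * f ω)) = 0 := by
        unfold EE
        have : IsEmpty (ι → Ω) := not_nonempty_iff.1 hne
        simp
      rw [h1]
      exact (Real.exp_pos _).le
  | insert i S hi ih =>
    intro f hf hlc hc hN hp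
    let g : (ι → Ω) → ℝ := fun ω => ∑ a, μ i a * f (Function.update ω i a)
    have hpi : ∑ a, (if N i a then 0 else μ i a) ≤ p i := hp i (Finset.mem_insert_self _ _)
    have h1 : EE μ (fun ω => Real.exp (l * f ω)) ≤
        EE μ (fun ω => Real.exp (l ^ 2 * (p i * c i ^ 2)) * Real.exp (l * g ω)) := by
      rw [← EE_resample h i]
      refine EE_mono h fun ω => ?_
      have := one_coord (Y := fun a => f (Function.update ω i a)) (h.nonneg i) (h.sum_one i) (N i)
        hl (hlc i (Finset.mem_insert_self _ _))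
        (fun a b => hc i (Finset.mem_insert_self _ _) ω a b)
        (fun a b ha hb => hN i (Finset.mem_insert_self _ _) ω a b ha hb) hpi
      refine this.trans (le_of_eq ?_)
      rw [← Real.exp_add]
      congr 1
      simp only [g]
      ring
    have hgdep : Dep g S := by
      intro ω ω' hω
      simp only [g]
      refine Finset.sum_congr rfl fun a _ => ?_
      congr 1
      apply hf
      intro j hj
      by_cases hji : j = i
      · subst hji
        simp
      · rw [Function.update_of_ne hji, Function.update_of_ne hji]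
        exact hω j ((Finset.mem_insert.1 hj).resolve_left hji)
    have hEg : EE μ g = EE μ f := EE_resample h i f
    have h2 := ih g hgdep (fun j hj => hlc j (Finset.mem_insert_of_mem hj))
      (fun j hj ω a b => by
        have hji : j ≠ i := fun e => hi (e ▸ hj)
        simp only [g]
        rw [← Finset.sum_sub_distrib]
        calc |∑ a', (μ i a' * f (Function.update (Function.update ω j a) i a') -
              μ i a' * f (Function.update (Function.update ω j b) i a'))|
            ≤ ∑ a', |μ i a' * f (Function.update (Function.update ω j a) i a') -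
              μ i a' * f (Function.update (Function.update ω j b) i a')| :=
              Finset.abs_sum_le_sum_abs _ _
          _ ≤ ∑ a', μ i a' * c j := by
              refine Finset.sum_le_sum fun a' _ => ?_
              rw [← mul_sub, abs_mul, abs_of_nonneg (h.nonneg i a')]
              apply mul_le_mul_of_nonneg_left _ (h.nonneg i a')
              rw [Function.update_comm hji, Function.update_comm hji]
              exact hc j (Finset.mem_insert_of_mem hj) _ a b
          _ = c j := by rw [← Finset.sum_mul, h.sum_one, one_mul])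
      (fun j hj ω a b ha hb => by
        have hji : j ≠ i := fun e => hi (e ▸ hj)
        simp only [g]
        refine Finset.sum_congr rfl fun a' _ => ?_
        congr 1
        rw [Function.update_comm hji, Function.update_comm hji]
        exact hN j (Finset.mem_insert_of_mem hj) _ a b ha hb)
      (fun j hj => hp j (Finset.mem_insert_of_mem hj))
    refine h1.trans ?_
    rw [EE_const_mul]
    refine (mul_le_mul_of_nonneg_left h2 (Real.exp_pos _).le).trans (le_of_eq ?_)
    rw [← Real.exp_add, hEg, Finset.sum_insert hi]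
    congr 1
    ring

end mgf

end Pool.Agent.Helper61.LE
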