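import Pool.Agent.Helper61.LE.LLL

/-!
# The random experiment of one nibble round: expectations
-/

set_option autoImplicit false
set_option linter.unusedSectionVars false

namespace Pool.Agent.Helper61.LE

open Finset

section forallprob

variable {ι Ω : Type*} [Fintype ι] [DecidableEq ι] [Fintype Ω] [DecidableEq Ω]
variable {μ : ι → Ω → ℝ}

theorem PP_forall (R : ι → Ω → Prop) [∀ i a, Decidable (R i a)] :
    PP μ (fun ω => ∀ i, R i (ω i)) = ∏ i, ∑ a, if R i a then μ i a else 0 := by
  classical
  unfold PP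
  have h1 : (fun ω : ι → Ω => if (∀ i, R i (ω i)) then (1 : ℝ) else 0) =
      fun ω => ∏ i, (if R i (ω i) then (1 : ℝ) else 0) := by
    ext ω
    by_cases h : ∀ i, R i (ω i)
    · rw [if_pos h]
      symm
      exact Finset.prod_eq_one fun i _ => by rw [if_pos (h i)]
    · rw [if_neg h]
      push Not at h
      obtain ⟨i, hi⟩ := h
      symm
      exact Finset.prod_eq_zero (Finset.mem_univ i) (by rw [if_neg hi])
  have h2 : EE μ (fun ω : ι → Ω => if (∀ i, R i (ω i)) then (1 : ℝ) else 0) =
      ∏ i, ∑ a, μ i a * (if R i a then (1 : ℝ) else 0) := by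
    rw [h1, EE_prod (fun i a => if R i a then (1 : ℝ) else 0)]
  refine Eq.trans ?_ (h2.trans ?_)
  · refine EE_congr fun ω => ?_
    split_ifs <;> rfl
  · refine Finset.prod_congr rfl fun i _ => Finset.sum_congr rfl fun a _ => ?_
    split_ifs <;> simp

theorem PP_forall_mem (h : IsProb μ) (F : Finset ι) (R : ι → Ω → Prop)
    [∀ i a, Decidable (R i a)] :
    PP μ (fun ω => ∀ i ∈ F, R i (ω i)) = ∏ i ∈ F, ∑ a, if R i a then μ i a else 0 := by
  classical
  have h1 := PP_forall (μ := μ) (fun i a => i ∈ F → R i a)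
  rw [h1]
  symm
  rw [← Finset.prod_subset (Finset.subset_univ F)]
  · refine Finset.prod_congr rfl fun i hi => Finset.sum_congr rfl fun a _ => ?_
    simp [hi]
  · intro i _ hi
    simp [hi, h.sum_one]

end forallprob

section

theorem prod_one_sub_ge {ι : Type*} (s : Finset ι) (x : ι → ℝ) (h0 : ∀ i ∈ s, 0 ≤ x i)
    (h1 : ∀ i ∈ s, x i ≤ 1) : 1 - ∑ i ∈ s, x i ≤ ∏ i ∈ s, (1 - x i) := by
  classical
  induction s using Finset.induction_on with
  | empty => simp
  | insert i s hi ih =>
    rw [Finset.sum_insert hi, Finset.prod_insert hi]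
    have ih' := ih (fun j hj => h0 j (Finset.mem_insert_of_mem hj))
      (fun j hj => h1 j (Finset.mem_insert_of_mem hj))
    have a0 := h0 i (Finset.mem_insert_self _ _)
    have a1 := h1 i (Finset.mem_insert_self _ _)
    have s0 : 0 ≤ ∑ j ∈ s, x j := Finset.sum_nonneg fun j hj => h0 j (Finset.mem_insert_of_mem hj)
    have : (1 - x i) * (1 - ∑ j ∈ s, x j) ≤ (1 - x i) * ∏ j ∈ s, (1 - x j) :=
      mul_le_mul_of_nonneg_left ih' (by linarith)
    nlinarith [mul_nonneg a0 s0]

theorem sum_biUnion_le' {ι κ : Type*} [DecidableEq κ] (s : Finset ι) (t : ι → Finset κ)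
    (f : κ → ℝ) (h : ∀ i ∈ s, ∀ x ∈ t i, 0 ≤ f x) :
    ∑ x ∈ s.biUnion t, f x ≤ ∑ i ∈ s, ∑ x ∈ t i, f x := by
  classical
  induction s using Finset.induction_on with
  | empty => simp
  | insert i s hi ih =>
    rw [Finset.sum_insert hi, Finset.biUnion_insert]
    have ih' := ih (fun j hj => h j (Finset.mem_insert_of_mem hj))
    have h1 := Finset.sum_union_inter (s₁ := t i) (s₂ := s.biUnion t) (f := f)
    have h2 : 0 ≤ ∑ x ∈ t i ∩ s.biUnion t, f x :=
      Finset.sum_nonneg fun x hx => h i (Finset.mem_insert_self _ _) x (Finset.mem_inter.1 hx).1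
    linarith

end

section nibble

variable {V C : Type} [Fintype V] [DecidableEq V] [Fintype C] [DecidableEq C]

/-- the edges of `H` other than `e` that meet `e` -/
def nb (H : Finset (Finset V)) (e : Finset V) : Finset (Finset V) :=
  H.filter (fun f => f ≠ e ∧ ¬ Disjoint e f)

/-- the edges of `H` at `v` -/
def att (H : Finset (Finset V)) (v : V) : Finset (Finset V) := H.filter (fun e => v ∈ e)

theorem mem_nb {H : Finset (Finset V)} {e f : Finset V} :
    f ∈ nb H e ↔ f ∈ H ∧ f ≠ e ∧ ¬ Disjoint e f := by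
  unfold nb
  rw [Finset.mem_filter]

theorem mem_att {H : Finset (Finset V)} {v : V} {e : Finset V} :
    e ∈ att H v ↔ e ∈ H ∧ v ∈ e := by
  unfold att
  rw [Finset.mem_filter]

/-- The data of a round: a linear hypergraph with edges of size at most `k` and degrees at most
`D`, and for every edge a probability vector on the colours with entries at most `K / D` and support
of size at most `2 D`, such that the weights of a colour at a vertex add up to at most `σ`. -/
structure Good (k D : ℕ) (K σ : ℝ) (H : Finset (Finset V)) (p : Finset V → C → ℝ) : Prop where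
  lin : ∀ e ∈ H, ∀ f ∈ H, e ≠ f → (e ∩ f).card ≤ 1
  size : ∀ e ∈ H, e.card ≤ k
  ne : ∀ e ∈ H, e.Nonempty
  deg : ∀ v, (att H v).card ≤ D
  nonneg : ∀ e ∈ H, ∀ c, 0 ≤ p e c
  le : ∀ e ∈ H, ∀ c, p e c ≤ K / D
  sum : ∀ e ∈ H, ∑ c, p e c = 1
  supp : ∀ e ∈ H, (univ.filter (fun c => p e c ≠ 0)).card ≤ 2 * D
  vc : ∀ v c, ∑ e ∈ att H v, p e c ≤ σ

/-- edges of `H` pick a colour `c` with probability `α * p e c` -/
def mu (α : ℝ) (H : Finset (Finset V)) (p : Finset V → C → ℝ) (e : Finset V) : Option C → ℝ
  | none => if e ∈ H then 1 - α else 1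
  | some c => if e ∈ H then α * p e c else 0

/-- none of the edges in `F` picks `c` -/
def NoC (F : Finset (Finset V)) (c : C) (ω : Finset V → Option C) : Prop :=
  ∀ f ∈ F, ω f ≠ some c

/-- `e` picks `a` and keeps it -/
def Cl (H : Finset (Finset V)) (e : Finset V) (a : C) (ω : Finset V → Option C) : Prop :=
  ω e = some a ∧ NoC (nb H e) a ω

/-- `e` gets coloured -/
def Clr (H : Finset (Finset V)) (e : Finset V) (ω : Finset V → Option C) : Prop :=
  ∃ a, Cl H e a ω

variable {k D : ℕ} {K σ α : ℝ} {H : Finset (Finset V)} {p : Finset V → C → ℝ}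

theorem Good.le_one (hG : Good k D K σ H p) {e : Finset V} (he : e ∈ H) (c : C) : p e c ≤ 1 := by
  rw [← hG.sum e he]
  exact Finset.single_le_sum (fun c _ => hG.nonneg e he c) (Finset.mem_univ c)

theorem isProb_mu (hG : Good k D K σ H p) (h0 : 0 ≤ α) (h1 : α ≤ 1) : IsProb (mu α H p) := by
  refine ⟨fun e a => ?_, fun e => ?_⟩
  · cases a with
    | none =>
      simp only [mu]
      split_ifs
      · linarith
      · norm_num
    | some c =>
      simp only [mu]
      split_ifs with he
      · exact mul_nonneg h0 (hG.nonneg e he c)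
      · exact le_rfl
  · rw [Fintype.sum_option]
    simp only [mu]
    split_ifs with he
    · rw [← Finset.mul_sum, hG.sum e he]
      ring
    · simp

/-- probability that an edge does not pick `c` -/
theorem sum_ne (hG : Good k D K σ H p) {e : Finset V} (he : e ∈ H) (c : C) :
    ∑ a, (if a ≠ some c then mu α H p e a else 0) = 1 - α * p e c := by
  rw [Fintype.sum_option]
  simp only [mu, he, if_true]
  have : ∀ i : C, (if some i ≠ some c then α * p e i else 0) =
      α * p e i - (if i = c then α * p e c else 0) := by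
    intro i
    by_cases hi : i = c
    · subst hi
      simp
    · simp [hi]
  simp only [this]
  rw [Finset.sum_sub_distrib, ← Finset.mul_sum, hG.sum e he]
  simp

/-- probability that an edge picks neither `a` nor `c` -/
theorem sum_ne2 (hG : Good k D K σ H p) {e : Finset V} (he : e ∈ H) {a c : C} (hac : a ≠ c) :
    ∑ x, (if x ≠ some a ∧ x ≠ some c then mu α H p e x else 0) =
      1 - α * p e a - α * p e c := by
  rw [Fintype.sum_option]
  simp only [mu, he, if_true]
  have : ∀ i : C, (if some i ≠ some a ∧ some i ≠ some c then α * p e i else 0) =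
      α * p e i - (if i = a then α * p e a else 0) - (if i = c then α * p e c else 0) := by
    intro i
    by_cases hi : i = a
    · subst hi
      simp [hac]
    · by_cases hi' : i = c
      · subst hi'
        simp [hi]
      · simp [hi, hi']
  simp only [this]
  rw [Finset.sum_sub_distrib, Finset.sum_sub_distrib, ← Finset.mul_sum, hG.sum e he]
  simp
  ring

theorem sum_eq (hG : Good k D K σ H p) {e : Finset V} (he : e ∈ H) (a : C) :
    ∑ x, (if x = some a then mu α H p e x else 0) = α * p e a := by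
  simp [mu, he]

theorem PP_noC (hG : Good k D K σ H p) (h0 : 0 ≤ α) (h1 : α ≤ 1) {F : Finset (Finset V)}
    (hF : F ⊆ H) (c : C) : PP (mu α H p) (NoC F c) = ∏ f ∈ F, (1 - α * p f c) := by
  have := PP_forall_mem (isProb_mu hG h0 h1) F (fun _ a => a ≠ some c)
  unfold NoC
  rw [this]
  exact Finset.prod_congr rfl fun f hf => sum_ne hG (hF hf) c

theorem PP_cl_noC_ge (hG : Good k D K σ H p) (h0 : 0 ≤ α) (h1 : α ≤ 1 / 2) {e : Finset V}
    (he : e ∈ H) {F : Finset (Finset V)} (hF : F ⊆ nb H e) {a c : C} (hac : a ≠ c) :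
    α * p e a * (∏ f ∈ F, (1 - α * p f c)) * (1 - 2 * α * ∑ f ∈ nb H e, p f a) ≤
      PP (mu α H p) (fun ω => Cl H e a ω ∧ NoC F c ω) := by
  classical
  have hμ := isProb_mu hG h0 (by linarith : α ≤ 1)
  have hnbH : nb H e ⊆ H := Finset.filter_subset _ _
  have henb : e ∉ nb H e := by
    rw [mem_nb]
    tauto
  have h2 := PP_forall_mem hμ (insert e (nb H e))
    (fun f x => if f = e then x = some a else (x ≠ some a ∧ (f ∈ F → x ≠ some c)))
  have h3 : PP (mu α H p) (fun ω => Cl H e a ω ∧ NoC F c ω) =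
      PP (mu α H p) (fun ω => ∀ f ∈ insert e (nb H e),
        (if f = e then ω f = some a else (ω f ≠ some a ∧ (f ∈ F → ω f ≠ some c)))) := by
    refine PP_congr fun ω => ?_
    unfold Cl NoC
    constructor
    · rintro ⟨⟨h4, h5⟩, h6⟩ f hf
      split_ifs with hfe
      · rw [hfe]
        exact h4
      · have hfn := (Finset.mem_insert.1 hf).resolve_left hfe
        exact ⟨h5 f hfn, h6 f⟩
    · intro h4
      refine ⟨⟨?_, fun f hf => ?_⟩, fun f hf => ?_⟩
      · have := h4 e (Finset.mem_insert_self _ _)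
        rwa [if_pos rfl] at this
      · have := h4 f (Finset.mem_insert_of_mem hf)
        have hfe : f ≠ e := fun h => henb (h ▸ hf)
        rw [if_neg hfe] at this
        exact this.1
      · have := h4 f (Finset.mem_insert_of_mem (hF hf))
        have hfe : f ≠ e := fun h => henb (h ▸ hF hf)
        rw [if_neg hfe] at this
        exact this.2 hf
  rw [h3, h2, Finset.prod_insert henb]
  have e1 : (∑ x, if (if e = e then x = some a else (x ≠ some a ∧ (e ∈ F → x ≠ some c)))
      then mu α H p e x else 0) = α * p e a := by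
    rw [← sum_eq hG he a]
    refine Finset.sum_congr rfl fun x _ => ?_
    simp
  rw [e1, mul_assoc]
  apply mul_le_mul_of_nonneg_left _ (mul_nonneg h0 (hG.nonneg e he a))
  have hp0 : ∀ f ∈ nb H e, ∀ c, 0 ≤ α * p f c := fun f hf c =>
    mul_nonneg h0 (hG.nonneg f (hnbH hf) c)
  have hp1 : ∀ f ∈ nb H e, ∀ c, α * p f c ≤ 1 / 2 := fun f hf c => by
    have a1 := hG.le_one (hnbH hf) c
    have a2 := hG.nonneg f (hnbH hf) c
    nlinarith
  have e2 : ∀ f ∈ nb H e, (1 - 2 * (α * p f a)) * (if f ∈ F then (1 - α * p f c) else 1) ≤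
      (∑ x, if (if f = e then x = some a else (x ≠ some a ∧ (f ∈ F → x ≠ some c)))
        then mu α H p f x else 0) := by
    intro f hf
    have hfe : f ≠ e := fun h => henb (h ▸ hf)
    by_cases hfF : f ∈ F
    · have : (∑ x, if (if f = e then x = some a else (x ≠ some a ∧ (f ∈ F → x ≠ some c)))
        then mu α H p f x else 0) = 1 - α * p f a - α * p f c := by
        rw [← sum_ne2 hG (hnbH hf) hac]
        refine Finset.sum_congr rfl fun x _ => ?_
        simp [hfe, hfF]
      rw [this, if_pos hfF]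
      nlinarith [hp0 f hf a, hp0 f hf c, hp1 f hf a, hp1 f hf c]
    · have : (∑ x, if (if f = e then x = some a else (x ≠ some a ∧ (f ∈ F → x ≠ some c)))
        then mu α H p f x else 0) = 1 - α * p f a := by
        rw [← sum_ne hG (hnbH hf) a]
        refine Finset.sum_congr rfl fun x _ => ?_
        simp [hfe, hfF]
      rw [this, if_neg hfF]
      linarith [hp0 f hf a]
  have hpos : ∀ f ∈ nb H e, 0 ≤ (1 - 2 * (α * p f a)) * (if f ∈ F then (1 - α * p f c) else 1) := by
    intro f hf
    apply mul_nonneg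
    · linarith [hp1 f hf a]
    · split_ifs
      · linarith [hp1 f hf c]
      · norm_num
  refine le_trans ?_ (Finset.prod_le_prod hpos e2)
  rw [Finset.prod_mul_distrib, mul_comm]
  have e3 : ∏ f ∈ nb H e, (if f ∈ F then (1 - α * p f c) else 1) = ∏ f ∈ F, (1 - α * p f c) := by
    rw [Finset.prod_ite_mem, Finset.inter_eq_right.2 hF]
  rw [e3]
  apply mul_le_mul_of_nonneg_right
  · have := prod_one_sub_ge (nb H e) (fun f => 2 * (α * p f a))
      (fun f hf => by linarith [hp0 f hf a]) (fun f hf => by linarith [hp1 f hf a])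
    refine le_trans (le_of_eq ?_) this
    rw [Finset.mul_sum]
    congr 1
    exact Finset.sum_congr rfl fun f _ => by ring
  · exact Finset.prod_nonneg fun f hf => by linarith [hp1 f (hF hf) c]

theorem insert_nb_subset (H : Finset (Finset V)) {e : Finset V} (he : e ∈ H)
    (hne : e.Nonempty) : insert e (nb H e) ⊆ e.biUnion (fun v => att H v) := by
  intro f hf
  rw [Finset.mem_biUnion]
  rcases Finset.mem_insert.1 hf with rfl | hf
  · obtain ⟨v, hv⟩ := hne
    exact ⟨v, hv, mem_att.2 ⟨he, hv⟩⟩
  · obtain ⟨h1, _, h3⟩ := mem_nb.1 hf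
    rw [Finset.not_disjoint_iff] at h3
    obtain ⟨v, hv1, hv2⟩ := h3
    exact ⟨v, hv1, mem_att.2 ⟨h1, hv2⟩⟩

/-- the number of the edges meeting `e` -/
theorem card_nb_le (hG : Good k D K σ H p) {e : Finset V} (he : e ∈ H) :
    (insert e (nb H e)).card ≤ k * D := by
  calc (insert e (nb H e)).card ≤ (e.biUnion (fun v => att H v)).card :=
        Finset.card_le_card (insert_nb_subset H he (hG.ne e he))
    _ ≤ e.card * D := Finset.card_biUnion_le_card_mul _ _ _ fun v _ => hG.deg v
    _ ≤ k * D := Nat.mul_le_mul_right _ (hG.size e he)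

/-- the weights of a colour on the edges meeting `e` -/
theorem sum_nb_le (hG : Good k D K σ H p) (hσ : 0 ≤ σ) {e : Finset V} (he : e ∈ H) (c : C) :
    ∑ f ∈ insert e (nb H e), p f c ≤ k * σ := by
  calc ∑ f ∈ insert e (nb H e), p f c ≤ ∑ f ∈ e.biUnion (fun v => att H v), p f c := by
        apply Finset.sum_le_sum_of_subset_of_nonneg (insert_nb_subset H he (hG.ne e he))
        intro f hf _
        obtain ⟨v, _, hf⟩ := Finset.mem_biUnion.1 hf
        exact hG.nonneg f (mem_att.1 hf).1 c
    _ ≤ ∑ v ∈ e, ∑ f ∈ att H v, p f c :=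
        sum_biUnion_le' _ _ _ fun v _ f hf => hG.nonneg f (mem_att.1 hf).1 c
    _ ≤ ∑ _v ∈ e, σ := Finset.sum_le_sum fun v _ => hG.vc v c
    _ = e.card * σ := by rw [Finset.sum_const, nsmul_eq_mul]
    _ ≤ k * σ := by
        apply mul_le_mul_of_nonneg_right _ hσ
        exact_mod_cast hG.size e he

/-! ### the random variables -/

/-- the survival probability of the colour `c` at `e` -/
def rr (α : ℝ) (H : Finset (Finset V)) (p : Finset V → C → ℝ) (e : Finset V) (c : C) : ℝ :=
  ∏ f ∈ insert e (nb H e), (1 - α * p f c)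

open Classical in
/-- the new (not normalised) weights -/
noncomputable def nw (α : ℝ) (H : Finset (Finset V)) (p : Finset V → C → ℝ) (e : Finset V) (c : C)
    (ω : Finset V → Option C) : ℝ :=
  if NoC (insert e (nb H e)) c ω then p e c / rr α H p e c else 0

/-- the total new weight at `e` -/
noncomputable def WW (α : ℝ) (H : Finset (Finset V)) (p : Finset V → C → ℝ) (e : Finset V)
    (ω : Finset V → Option C) : ℝ := ∑ c, nw α H p e c ω

/-- the edges meeting `e` outside `v` -/
def Fv (H : Finset (Finset V)) (v : V) (e : Finset V) : Finset (Finset V) :=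
  insert e ((nb H e).filter (fun f => v ∉ f))

open Classical in
/-- one term of the total weight of `c` at `v` -/
noncomputable def zt (α : ℝ) (H : Finset (Finset V)) (p : Finset V → C → ℝ) (v : V) (c : C)
    (e : Finset V) (ω : Finset V → Option C) : ℝ :=
  if NoC (Fv H v e) c ω ∧ ¬ Clr H e ω then p e c / rr α H p e c else 0

/-- the total new weight of `c` at `v`, except that the edges at `v` do not kill the colour -/
noncomputable def ZZ (α : ℝ) (H : Finset (Finset V)) (p : Finset V → C → ℝ) (v : V) (c : C)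
    (ω : Finset V → Option C) : ℝ := ∑ e ∈ att H v, zt α H p v c e ω

/-- The size of the parameters -/
structure Par (k : ℕ) (γ α σ : ℝ) : Prop where
  k1 : 1 ≤ k
  γ0 : 0 < γ
  γ1 : γ ≤ 1
  α0 : α = γ / (8 * k)
  σ0 : 0 ≤ σ
  σ1 : σ ≤ 1 - γ

variable {γ : ℝ}

theorem Par.α_pos (hP : Par k γ α σ) : 0 < α := by
  rw [hP.α0]
  have : (1 : ℝ) ≤ k := by exact_mod_cast hP.k1
  have := hP.γ0
  positivity

theorem Par.αk (hP : Par k γ α σ) : α * k = γ / 8 := by
  rw [hP.α0]
  have : (1 : ℝ) ≤ k := by exact_mod_cast hP.k1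
  field_simp

theorem Par.α_le (hP : Par k γ α σ) : α ≤ 1 / 8 := by
  have h1 := hP.αk
  have h2 : (1 : ℝ) ≤ k := by exact_mod_cast hP.k1
  have h3 := hP.γ1
  have h4 := hP.α_pos
  nlinarith

/-- the survival probabilities are at least `1/2` -/
theorem rr_ge (hG : Good k D K σ H p) (hP : Par k γ α σ) {e : Finset V} (he : e ∈ H) (c : C) :
    1 / 2 ≤ rr α H p e c := by
  have hsub : insert e (nb H e) ⊆ H := by
    intro f hf
    rcases Finset.mem_insert.1 hf with rfl | hf
    · exact he
    · exact (mem_nb.1 hf).1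
  have h1 := prod_one_sub_ge (insert e (nb H e)) (fun f => α * p f c)
    (fun f hf => mul_nonneg hP.α_pos.le (hG.nonneg f (hsub hf) c))
    (fun f hf => by
      have := hG.le_one (hsub hf) c
      have := hG.nonneg f (hsub hf) c
      nlinarith [hP.α_le, hP.α_pos])
  have h2 := sum_nb_le hG hP.σ0 he c
  rw [← Finset.mul_sum] at h1
  have h3 : α * ∑ f ∈ insert e (nb H e), p f c ≤ α * (k * σ) :=
    mul_le_mul_of_nonneg_left h2 hP.α_pos.le
  have h4 : α * (k * σ) ≤ 1 / 8 := by
    rw [← mul_assoc, hP.αk]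
    nlinarith [hP.γ0, hP.γ1, hP.σ0, hP.σ1]
  unfold rr
  linarith

theorem nw_nonneg (hG : Good k D K σ H p) (hP : Par k γ α σ) {e : Finset V} (he : e ∈ H) (c : C)
    (ω : Finset V → Option C) : 0 ≤ nw α H p e c ω := by
  unfold nw
  split_ifs
  · exact div_nonneg (hG.nonneg e he c) (by linarith [rr_ge hG hP he c])
  · exact le_rfl

theorem w_le (hG : Good k D K σ H p) (hP : Par k γ α σ) {e : Finset V} (he : e ∈ H) (c : C) :
    p e c / rr α H p e c ≤ 2 * K / D := by
  have h1 := rr_ge hG hP he c
  rw [div_le_iff₀ (by linarith)]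
  have h2 := hG.le e he c
  have h3 := hG.nonneg e he c
  have h4 : 0 ≤ K / D := h3.trans h2
  calc p e c ≤ K / D := h2
    _ ≤ 2 * K / D * (1 / 2) := by rw [mul_div_assoc]; linarith
    _ ≤ 2 * K / D * rr α H p e c := by
        apply mul_le_mul_of_nonneg_left h1
        rw [mul_div_assoc]
        linarith

theorem nw_le (hG : Good k D K σ H p) (hP : Par k γ α σ) {e : Finset V} (he : e ∈ H) (c : C)
    (ω : Finset V → Option C) : nw α H p e c ω ≤ 2 * K / D := by
  have h1 := w_le hG hP he c
  unfold nw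
  split_ifs
  · exact h1
  · have h2 := hG.le e he c
    have h3 := hG.nonneg e he c
    have h4 : 0 ≤ K / D := h3.trans h2
    rw [mul_div_assoc]
    linarith

/-- unbiasedness -/
theorem EE_nw (hG : Good k D K σ H p) (hP : Par k γ α σ) {e : Finset V} (he : e ∈ H) (c : C) :
    EE (mu α H p) (nw α H p e c) = p e c := by
  classical
  have hsub : insert e (nb H e) ⊆ H := by
    intro f hf
    rcases Finset.mem_insert.1 hf with rfl | hf
    · exact he
    · exact (mem_nb.1 hf).1
  have h1 : EE (mu α H p) (nw α H p e c) =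
      (p e c / rr α H p e c) * PP (mu α H p) (NoC (insert e (nb H e)) c) := by
    unfold PP
    rw [← EE_const_mul]
    refine EE_congr fun ω => ?_
    unfold nw
    split_ifs <;> simp
  have h2 := rr_ge hG hP he c
  rw [h1, PP_noC hG hP.α_pos.le (by linarith [hP.α_le]) hsub]
  have : rr α H p e c ≠ 0 := by linarith
  change p e c / rr α H p e c * rr α H p e c = p e c
  field_simp

theorem EE_WW (hG : Good k D K σ H p) (hP : Par k γ α σ) {e : Finset V} (he : e ∈ H) :
    EE (mu α H p) (WW α H p e) = 1 := by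
  unfold WW
  rw [EE_sum, ← hG.sum e he]
  exact Finset.sum_congr rfl fun c _ => EE_nw hG hP he c

end nibble

end Pool.Agent.Helper61.LE
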