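import Pool.Agent.Helper61.LE.Nib3

/-!
# Tail bounds
-/

set_option autoImplicit false
set_option linter.unusedSectionVars false

namespace Pool.Agent.Helper61.LE

open Finset

section general

variable {ι Ω : Type*} [Fintype ι] [DecidableEq ι] [Fintype Ω] [DecidableEq Ω]
variable {μ : ι → Ω → ℝ}

theorem EE_abs_sub_le (h : IsProb μ) {f g : (ι → Ω) → ℝ} {c : ℝ} (hfg : ∀ ω, |f ω - g ω| ≤ c) :
    |EE μ f - EE μ g| ≤ c := by
  rw [abs_le]
  have h1 : EE μ f ≤ EE μ g + c := by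
    rw [← EE_const h c (μ := μ), ← EE_add]
    refine EE_mono h fun ω => ?_
    have := (abs_le.1 (hfg ω)).2
    linarith
  have h2 : EE μ g ≤ EE μ f + c := by
    rw [← EE_const h c (μ := μ), ← EE_add]
    refine EE_mono h fun ω => ?_
    have := (abs_le.1 (hfg ω)).1
    linarith
  constructor <;> linarith

theorem mix_update_mem {S : Finset ι} {i : ι} (hi : i ∈ S) (ω ω' : ι → Ω) (a : Ω) :
    mix S (Function.update ω i a) ω' = Function.update (mix S ω ω') i a := by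
  ext j
  by_cases hj : j = i
  · subst hj
    simp [mix, hi]
  · by_cases hjS : j ∈ S <;> simp [mix, hj, hjS]

theorem mix_update_not_mem {S : Finset ι} {i : ι} (hi : i ∉ S) (ω ω' : ι → Ω) (a : Ω) :
    mix S ω (Function.update ω' i a) = Function.update (mix S ω ω') i a := by
  ext j
  by_cases hj : j = i
  · subst hj
    simp [mix, hi]
  · by_cases hjS : j ∈ S <;> simp [mix, hj, hjS]

/-- tail from exponential moments -/
theorem tail (h : IsProb μ) (f : (ι → Ω) → ℝ) {A Vr δ D : ℝ} (hA : 0 < A) (hD : 0 < D)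
    (hδ : 0 ≤ δ) (hV : Vr ≤ A / D)
    (hm : EE μ (fun ω => Real.exp (δ / (2 * A) * D * f ω)) ≤
      Real.exp (δ / (2 * A) * D * EE μ f + (δ / (2 * A) * D) ^ 2 * Vr)) :
    PP μ (fun ω => EE μ f + δ ≤ f ω) ≤ Real.exp (-(δ ^ 2 / (4 * A) * D)) := by
  have hl : 0 ≤ δ / (2 * A) * D := by positivity
  refine (PP_ge_le_exp h f (EE μ f + δ) (δ / (2 * A) * D) hl).trans ?_
  refine (mul_le_mul_of_nonneg_left hm (Real.exp_pos _).le).trans ?_
  rw [← Real.exp_add]
  apply Real.exp_le_exp.2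
  have h1 : (δ / (2 * A) * D) ^ 2 * Vr ≤ (δ / (2 * A) * D) ^ 2 * (A / D) :=
    mul_le_mul_of_nonneg_left hV (sq_nonneg _)
  have h2 : (δ / (2 * A) * D) ^ 2 * (A / D) = δ ^ 2 / (4 * A) * D := by
    field_simp
    ring
  have h3 : δ / (2 * A) * D * δ = 2 * (δ ^ 2 / (4 * A) * D) := by
    field_simp
    ring
  nlinarith

end general

variable {V C : Type} [Fintype V] [DecidableEq V] [Fintype C] [DecidableEq C]
variable {k D : ℕ} {K σ α γ : ℝ} {H : Finset (Finset V)} {p : Finset V → C → ℝ}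

/-- exponential moments of the weight at a vertex -/
theorem mgf_ZZ (hG : Good k D K σ H p) (hP : Par k γ α σ) (hw : 0 ≤ 2 * K / D) (v : V) (c : C)
    {l : ℝ} (hl : 0 ≤ l) (hl1 : l * (k * (2 * K / D)) ≤ 1) (hl2 : l * (3 * (2 * K / D)) ≤ 1) :
    EE (mu α H p) (fun ω => Real.exp (l * ZZ α H p v c ω)) ≤
      Real.exp (l * EE (mu α H p) (ZZ α H p v c) +
        l ^ 2 * (D * (3 * (2 * K / D)) ^ 2 + D * (k * D) * (((k + 1) * (K / D)) *
          (k * (2 * K / D)) ^ 2))) := by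
  classical
  have hμ := isProb_mu hG hP.α_pos.le (by linarith [hP.α_le] : α ≤ 1)
  set S₁ := att H v with hS₁
  set S₂ := Sv H v \ att H v with hS₂
  set w := 2 * K / D with hwdef
  have hKD : (0 : ℝ) ≤ K / D := by
    rw [hwdef, mul_div_assoc] at hw
    linarith
  rw [← EE_mix hμ S₁ (fun ω => Real.exp (l * ZZ α H p v c ω)),
    ← EE_mix hμ S₁ (ZZ α H p v c)]
  -- inner estimate
  have inner : ∀ ω, EE (mu α H p) (fun ω' => Real.exp (l * ZZ α H p v c (mix S₁ ω ω'))) ≤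
      Real.exp (l ^ 2 * (D * (k * D) * (((k + 1) * (K / D)) * (k * w) ^ 2))) *
      Real.exp (l * EE (mu α H p) (fun ω' => ZZ α H p v c (mix S₁ ω ω'))) := by
    intro ω
    have h1 := mgf hμ (fun _ => k * w) (fun _ => (k + 1) * (K / D)) hl
      (Neut H v c ω) S₂ (fun ω' => ZZ α H p v c (mix S₁ ω ω')) ?_ ?_ ?_ ?_ ?_
    · refine h1.trans ?_
      rw [← Real.exp_add]
      apply Real.exp_le_exp.2
      rw [Finset.sum_const, nsmul_eq_mul]
      have h2 : (S₂.card : ℝ) ≤ D * (k * D) := by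
        have := (Finset.card_le_card (Finset.sdiff_subset (s := Sv H v) (t := att H v))).trans
          (card_Sv hG v)
        exact_mod_cast this
      have h3 : 0 ≤ ((k + 1) * (K / D)) * (k * w) ^ 2 := by positivity
      have h4 := mul_le_mul_of_nonneg_right h2 h3
      have h5 := mul_le_mul_of_nonneg_left h4 (sq_nonneg l)
      linarith
    · intro ω₁ ω₂ h
      apply dep_ZZ
      intro f hf
      by_cases hfS : f ∈ S₁
      · rw [mix_mem hfS, mix_mem hfS]
      · rw [mix_not_mem hfS, mix_not_mem hfS]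
        exact h f (Finset.mem_sdiff.2 ⟨hf, hfS⟩)
    · intro i _
      exact hl1
    · intro i hi ω' a b
      rw [Finset.mem_sdiff] at hi
      have hiH := Sv_subset v hi.1
      have hv : v ∉ i := fun h => hi.2 (mem_att.2 ⟨hiH, h⟩)
      rw [mix_update_not_mem hi.2, mix_update_not_mem hi.2]
      exact ZZ_update_far hG hP hw v c _ hiH hv a b
    · intro i hi ω' a b ha hb
      rw [Finset.mem_sdiff] at hi
      have hiH := Sv_subset v hi.1
      have hv : v ∉ i := fun h => hi.2 (mem_att.2 ⟨hiH, h⟩)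
      rw [mix_update_not_mem hi.2, mix_update_not_mem hi.2]
      exact ZZ_update_neut v c ω _ (fun e he => mix_mem he) hv ha hb
    · intro i hi
      rw [Finset.mem_sdiff] at hi
      have hiH := Sv_subset v hi.1
      have hv : v ∉ i := fun h => hi.2 (mem_att.2 ⟨hiH, h⟩)
      exact sum_not_neut hG hP v c ω hiH hv
  refine (EE_mono hμ inner).trans ?_
  rw [EE_const_mul]
  have outer := mgf hμ (fun _ => 3 * w) (fun _ => 1) hl (fun _ _ => False) S₁
    (fun ω => EE (mu α H p) (fun ω' => ZZ α H p v c (mix S₁ ω ω'))) ?_ ?_ ?_ ?_ ?_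
  · refine (mul_le_mul_of_nonneg_left outer (Real.exp_pos _).le).trans ?_
    rw [← Real.exp_add]
    apply Real.exp_le_exp.2
    rw [Finset.sum_const, nsmul_eq_mul]
    have h2 : (S₁.card : ℝ) ≤ D := by exact_mod_cast hG.deg v
    have h3 : 0 ≤ 1 * (3 * w) ^ 2 := by positivity
    have h4 := mul_le_mul_of_nonneg_right h2 h3
    have h5 := mul_le_mul_of_nonneg_left h4 (sq_nonneg l)
    linarith
  · intro ω₁ ω₂ h
    refine EE_congr fun ω' => ?_
    congr 1
    ext1 f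
    by_cases hfS : f ∈ S₁
    · rw [mix_mem hfS, mix_mem hfS, h f hfS]
    · rw [mix_not_mem hfS, mix_not_mem hfS]
  · intro i _
    exact hl2
  · intro i hi ω a b
    apply EE_abs_sub_le hμ
    intro ω'
    rw [mix_update_mem hi, mix_update_mem hi]
    exact ZZ_update_near hG hP hw v c _ hi a b
  · intro i _ ω a b ha
    exact ha.elim
  · intro i _
    simp only [if_false]
    rw [hμ.sum_one i]

theorem mgf_WW (hG : Good k D K σ H p) (hP : Par k γ α σ) {e : Finset V} (he : e ∈ H)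
    {l : ℝ} (hl : 0 ≤ l) (hl1 : l * (2 * (2 * K / D)) ≤ 1) :
    EE (mu α H p) (fun ω => Real.exp (l * (-WW α H p e ω))) ≤
      Real.exp (l * EE (mu α H p) (fun ω => -WW α H p e ω) +
        l ^ 2 * (k * D * (2 * (2 * K / D)) ^ 2)) := by
  classical
  have hμ := isProb_mu hG hP.α_pos.le (by linarith [hP.α_le] : α ≤ 1)
  have h := mgf hμ (fun _ => 2 * (2 * K / D)) (fun _ => 1) hl (fun _ _ => False)
    (insert e (nb H e)) (fun ω => -WW α H p e ω) ?_ ?_ ?_ ?_ ?_
  · refine h.trans ?_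
    apply Real.exp_le_exp.2
    rw [Finset.sum_const, nsmul_eq_mul]
    have h2 : ((insert e (nb H e)).card : ℝ) ≤ k * D := by exact_mod_cast card_nb_le hG he
    have h3 : 0 ≤ 1 * (2 * (2 * K / (D : ℝ))) ^ 2 := by positivity
    have h4 := mul_le_mul_of_nonneg_right h2 h3
    have h5 := mul_le_mul_of_nonneg_left h4 (sq_nonneg l)
    linarith
  · intro ω₁ ω₂ h
    dsimp only
    rw [dep_WW e ω₁ ω₂ h]
  · intro i _
    exact hl1
  · intro i _ ω a b
    have := WW_update hG hP he ω i a b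
    rw [abs_sub_comm] at this
    rw [show -WW α H p e (Function.update ω i a) - -WW α H p e (Function.update ω i b) =
      WW α H p e (Function.update ω i b) - WW α H p e (Function.update ω i a) by ring]
    exact this
  · intro i _ ω a b ha
    exact ha.elim
  · intro i _
    simp only [if_false]
    rw [hμ.sum_one i]

/-- the constant in the exponent -/
noncomputable def AA (k : ℕ) (K : ℝ) : ℝ := 44 * (k : ℝ) ^ 4 * K ^ 3

theorem AA_pos (hk : 1 ≤ k) (hK : 1 ≤ K) : 0 < AA k K := by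
  unfold AA
  have : (1 : ℝ) ≤ k := by exact_mod_cast hk
  positivity

theorem AA_ge1 (hk : 1 ≤ k) (hK : 1 ≤ K) : 44 * K ≤ AA k K := by
  unfold AA
  have h1 : (1 : ℝ) ≤ k := by exact_mod_cast hk
  have h2 : (1 : ℝ) ≤ (k : ℝ) ^ 4 := one_le_pow₀ h1
  have h3 : (1 : ℝ) ≤ K ^ 2 := one_le_pow₀ hK
  have h4 : K * 1 ≤ K * K ^ 2 := mul_le_mul_of_nonneg_left h3 (by linarith)
  have h5 : 1 * K ^ 3 ≤ (k : ℝ) ^ 4 * K ^ 3 := mul_le_mul_of_nonneg_right h2 (by positivity)
  nlinarith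

theorem AA_ge2 (hk : 1 ≤ k) (hK : 1 ≤ K) : 44 * k * K ≤ AA k K := by
  unfold AA
  have h1 : (1 : ℝ) ≤ k := by exact_mod_cast hk
  have h2 : (1 : ℝ) ≤ (k : ℝ) ^ 3 := one_le_pow₀ h1
  have h3 : (1 : ℝ) ≤ K ^ 2 := one_le_pow₀ hK
  have h4 : (k : ℝ) * K * 1 ≤ k * K * ((k : ℝ) ^ 3 * K ^ 2) := by
    apply mul_le_mul_of_nonneg_left _ (by positivity)
    calc (1 : ℝ) = 1 * 1 := by ring
      _ ≤ (k : ℝ) ^ 3 * K ^ 2 := mul_le_mul h2 h3 (by norm_num) (by positivity)
  nlinarith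

theorem tail_ZZ (hG : Good k D K σ H p) (hP : Par k γ α σ) (hK : 1 ≤ K) (hD : 1 ≤ D) {δ : ℝ}
    (hδ0 : 0 ≤ δ) (hδ1 : δ ≤ 1) (v : V) (c : C) :
    PP (mu α H p) (fun ω => EE (mu α H p) (ZZ α H p v c) + δ ≤ ZZ α H p v c ω) ≤
      Real.exp (-(δ ^ 2 / (4 * AA k K) * D)) := by
  have hμ := isProb_mu hG hP.α_pos.le (by linarith [hP.α_le] : α ≤ 1)
  have hD' : (1 : ℝ) ≤ D := by exact_mod_cast hD
  have hk' : (1 : ℝ) ≤ k := by exact_mod_cast hP.k1
  have hA := AA_pos hP.k1 hK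
  have hA1 := AA_ge1 hP.k1 hK
  have hA2 := AA_ge2 hP.k1 hK
  have hw : 0 ≤ 2 * K / (D : ℝ) := by positivity
  refine tail hμ (ZZ α H p v c) (Vr := D * (3 * (2 * K / D)) ^ 2 + D * (k * D) *
    (((k + 1) * (K / D)) * (k * (2 * K / D)) ^ 2)) hA (by linarith) hδ0 ?_ ?_
  · rw [le_div_iff₀ (by linarith)]
    have h1 : (D * (3 * (2 * K / D)) ^ 2 + D * (k * D) *
      (((k + 1) * (K / D)) * (k * (2 * K / D)) ^ 2)) * (D : ℝ) =
      36 * K ^ 2 + 4 * k ^ 3 * (k + 1) * K ^ 3 := by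
      field_simp
      ring
    rw [h1]
    unfold AA
    have h2 : K ^ 2 ≤ (k : ℝ) ^ 4 * K ^ 3 := by
      have a1 : (1 : ℝ) ≤ (k : ℝ) ^ 4 := one_le_pow₀ hk'
      have a2 : K ^ 2 * 1 ≤ K ^ 2 * K := mul_le_mul_of_nonneg_left hK (by positivity)
      have a3 : 1 * K ^ 3 ≤ (k : ℝ) ^ 4 * K ^ 3 := mul_le_mul_of_nonneg_right a1 (by positivity)
      nlinarith
    have h3 : 4 * (k : ℝ) ^ 3 * (k + 1) * K ^ 3 ≤ 8 * (k : ℝ) ^ 4 * K ^ 3 := by
      have : 4 * (k : ℝ) ^ 3 * (k + 1) ≤ 8 * (k : ℝ) ^ 4 := by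
        have : (k : ℝ) ^ 3 * (k + 1) ≤ (k : ℝ) ^ 3 * (2 * k) :=
          mul_le_mul_of_nonneg_left (by linarith) (by positivity)
        nlinarith
      exact mul_le_mul_of_nonneg_right this (by positivity)
    linarith
  · apply mgf_ZZ hG hP hw
    · positivity
    · have : δ / (2 * AA k K) * D * (k * (2 * K / D)) = δ * (k * K) / AA k K := by
        field_simp
      rw [this, div_le_one hA]
      have : δ * (k * K) ≤ 1 * (k * K) := mul_le_mul_of_nonneg_right hδ1 (by positivity)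
      nlinarith
    · have : δ / (2 * AA k K) * D * (3 * (2 * K / D)) = δ * (3 * K) / AA k K := by
        field_simp
      rw [this, div_le_one hA]
      have : δ * (3 * K) ≤ 1 * (3 * K) := mul_le_mul_of_nonneg_right hδ1 (by positivity)
      nlinarith

theorem tail_WW (hG : Good k D K σ H p) (hP : Par k γ α σ) (hK : 1 ≤ K) (hD : 1 ≤ D) {δ : ℝ}
    (hδ0 : 0 ≤ δ) (hδ1 : δ ≤ 1) {e : Finset V} (he : e ∈ H) :
    PP (mu α H p) (fun ω => WW α H p e ω ≤ 1 - δ) ≤
      Real.exp (-(δ ^ 2 / (4 * AA k K) * D)) := by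
  have hμ := isProb_mu hG hP.α_pos.le (by linarith [hP.α_le] : α ≤ 1)
  have hD' : (1 : ℝ) ≤ D := by exact_mod_cast hD
  have hk' : (1 : ℝ) ≤ k := by exact_mod_cast hP.k1
  have hA := AA_pos hP.k1 hK
  have hA1 := AA_ge1 hP.k1 hK
  have hw : 0 ≤ 2 * K / (D : ℝ) := by positivity
  have h0 : PP (mu α H p) (fun ω => WW α H p e ω ≤ 1 - δ) =
      PP (mu α H p) (fun ω => EE (mu α H p) (fun ω => -WW α H p e ω) + δ ≤ -WW α H p e ω) := by
    refine PP_congr fun ω => ?_
    rw [EE_neg, EE_WW hG hP he]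
    constructor <;> intro h <;> linarith
  rw [h0]
  refine tail hμ (fun ω => -WW α H p e ω) (Vr := k * D * (2 * (2 * K / D)) ^ 2)
    hA (by linarith) hδ0 ?_ ?_
  · rw [le_div_iff₀ (by linarith)]
    have h1 : (k * D * (2 * (2 * K / D)) ^ 2) * (D : ℝ) = 16 * k * K ^ 2 := by
      field_simp
      ring
    rw [h1]
    unfold AA
    have a1 : (k : ℝ) ≤ (k : ℝ) ^ 4 := le_self_pow₀ hk' (by norm_num)
    have a2 : K ^ 2 * 1 ≤ K ^ 2 * K := mul_le_mul_of_nonneg_left hK (by positivity)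
    have a3 : (k : ℝ) * K ^ 3 ≤ (k : ℝ) ^ 4 * K ^ 3 :=
      mul_le_mul_of_nonneg_right a1 (by positivity)
    have a4 : (k : ℝ) * (K ^ 2 * 1) ≤ k * (K ^ 2 * K) :=
      mul_le_mul_of_nonneg_left a2 (by positivity)
    have a5 : (0 : ℝ) ≤ (k : ℝ) * K ^ 2 := by positivity
    nlinarith
  · apply mgf_WW hG hP he
    · positivity
    · have : δ / (2 * AA k K) * D * (2 * (2 * K / D)) = δ * (2 * K) / AA k K := by
        field_simp
      rw [this, div_le_one hA]
      have : δ * (2 * K) ≤ 1 * (2 * K) := mul_le_mul_of_nonneg_right hδ1 (by positivity)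
      nlinarith

end Pool.Agent.Helper61.LE
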