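import Pool.Agent.Helper61.LE.Nib4

/-!
# One round
-/

set_option autoImplicit false
set_option linter.unusedSectionVars false

namespace Pool.Agent.Helper61.LE

open Finset

variable {V C : Type} [Fintype V] [DecidableEq V] [Fintype C] [DecidableEq C]
variable {k D : ℕ} {K σ α γ : ℝ} {H : Finset (Finset V)} {p : Finset V → C → ℝ}

theorem nb_symm {e f : Finset V} (he : e ∈ H) (h : f ∈ nb H e) : e ∈ nb H f := by
  rw [mem_nb] at h ⊢
  exact ⟨he, h.2.1.symm, fun hd => h.2.2 hd.symm⟩

/-- the events at a vertex -/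
noncomputable def VC (H : Finset (Finset V)) (p : Finset V → C → ℝ) : Finset (V × C) := by
  classical
  exact univ.filter (fun vc => ∃ e ∈ att H vc.1, p e vc.2 ≠ 0)

theorem mem_VC {vc : V × C} : vc ∈ VC H p ↔ ∃ e ∈ att H vc.1, p e vc.2 ≠ 0 := by
  classical
  unfold VC
  simp

theorem card_edges_at (hG : Good k D K σ H p) {x : Finset V} (hx : x ∈ H) :
    (H.filter (fun e => x ∈ insert e (nb H e))).card ≤ k * D := by
  refine le_trans (Finset.card_le_card ?_) (card_nb_le hG hx)
  intro e he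
  rw [Finset.mem_filter] at he
  rcases Finset.mem_insert.1 he.2 with h | h
  · rw [h]
    exact Finset.mem_insert_self _ _
  · exact Finset.mem_insert_of_mem (nb_symm he.1 h)

theorem card_VC_at (hG : Good k D K σ H p) {x : Finset V} (hx : x ∈ H) :
    ((VC H p).filter (fun vc => x ∈ Sv H vc.1)).card ≤ k * D * k * (D * (2 * D)) := by
  classical
  have hsub : (VC H p).filter (fun vc => x ∈ Sv H vc.1) ⊆
      ((insert x (nb H x)).biUnion id).biUnion (fun v =>
        ((att H v).biUnion (fun e => univ.filter (fun c => p e c ≠ 0))).image (fun c => (v, c))) := by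
    rintro ⟨v, c⟩ hvc
    rw [Finset.mem_filter, mem_VC] at hvc
    obtain ⟨⟨e', he', hpe⟩, hxv⟩ := hvc
    rw [Finset.mem_biUnion]
    refine ⟨v, ?_, ?_⟩
    · obtain ⟨e, he, hxe⟩ := Finset.mem_biUnion.1 hxv
      rw [Finset.mem_biUnion]
      refine ⟨e, ?_, (mem_att.1 he).2⟩
      rcases Finset.mem_insert.1 hxe with h | h
      · rw [h]
        exact Finset.mem_insert_self _ _
      · exact Finset.mem_insert_of_mem (nb_symm (mem_att.1 he).1 h)
    · rw [Finset.mem_image]
      refine ⟨c, ?_, rfl⟩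
      rw [Finset.mem_biUnion]
      exact ⟨e', he', Finset.mem_filter.2 ⟨Finset.mem_univ _, hpe⟩⟩
  refine (Finset.card_le_card hsub).trans ?_
  calc _ ≤ ((insert x (nb H x)).biUnion id).card * (D * (2 * D)) := by
        refine Finset.card_biUnion_le_card_mul _ _ _ fun v _ => ?_
        refine Finset.card_image_le.trans ?_
        calc _ ≤ (att H v).card * (2 * D) :=
              Finset.card_biUnion_le_card_mul _ _ _ fun e he => hG.supp e (mem_att.1 he).1
          _ ≤ D * (2 * D) := Nat.mul_le_mul_right _ (hG.deg v)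
    _ ≤ k * D * k * (D * (2 * D)) := by
        apply Nat.mul_le_mul_right
        calc ((insert x (nb H x)).biUnion id).card ≤ (insert x (nb H x)).card * k := by
              refine Finset.card_biUnion_le_card_mul _ _ _ fun e he => ?_
              rcases Finset.mem_insert.1 he with h | h
              · rw [h]
                exact hG.size x hx
              · exact hG.size e (mem_nb.1 h).1
          _ ≤ k * D * k := Nat.mul_le_mul_right _ (card_nb_le hG hx)

/-- the good outcome -/
theorem exists_good (hG : Good k D K σ H p) (hP : Par k γ α σ) (hK : 1 ≤ K) (hD : 1 ≤ D) {δ : ℝ}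
    (hδ0 : 0 ≤ δ) (hδ1 : δ ≤ 1)
    (hbig : 3 * (k : ℝ) ^ 3 * (D : ℝ) ^ 5 * Real.exp (-(δ ^ 2 / (4 * AA k K) * D)) ≤ 1 / 4) :
    ∃ ω : Finset V → Option C, (∀ e, mu α H p e (ω e) ≠ 0) ∧
      (∀ e ∈ H, 1 - δ < WW α H p e ω) ∧
      ∀ v c, (∃ e ∈ att H v, p e c ≠ 0) →
        ZZ α H p v c ω < EE (mu α H p) (ZZ α H p v c) + δ := by
  classical
  have hμ := isProb_mu hG hP.α_pos.le (by linarith [hP.α_le] : α ≤ 1)
  have hD' : (1 : ℝ) ≤ D := by exact_mod_cast hD
  have hk' : (1 : ℝ) ≤ k := by exact_mod_cast hP.k1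
  set P := Real.exp (-(δ ^ 2 / (4 * AA k K) * D)) with hPdef
  have hPpos : 0 < P := Real.exp_pos _
  let A : Finset V ⊕ (V × C) → (Finset V → Option C) → Prop :=
    Sum.elim (fun e ω => WW α H p e ω ≤ 1 - δ)
      (fun vc ω => EE (mu α H p) (ZZ α H p vc.1 vc.2) + δ ≤ ZZ α H p vc.1 vc.2 ω)
  let S : Finset V ⊕ (V × C) → Finset (Finset V) :=
    Sum.elim (fun e => insert e (nb H e)) (fun vc => Sv H vc.1)
  let J : Finset (Finset V ⊕ (V × C)) := H.disjSum (VC H p)
  have hPP : ∀ j ∈ J, PP (mu α H p) (A j) ≤ P := by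
    intro j hj
    rcases Finset.mem_disjSum.1 hj with ⟨e, he, rfl⟩ | ⟨vc, _, rfl⟩
    · exact tail_WW hG hP hK hD hδ0 hδ1 he
    · exact tail_ZZ hG hP hK hD hδ0 hδ1 vc.1 vc.2
  have hSH : ∀ j ∈ J, S j ⊆ H := by
    intro j hj
    rcases Finset.mem_disjSum.1 hj with ⟨e, he, rfl⟩ | ⟨vc, _, rfl⟩
    · intro f hf
      rcases Finset.mem_insert.1 hf with rfl | hf
      · exact he
      · exact (mem_nb.1 hf).1
    · exact Sv_subset _
  have hScard : ∀ j ∈ J, (S j).card ≤ D * (k * D) := by
    intro j hj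
    rcases Finset.mem_disjSum.1 hj with ⟨e, he, rfl⟩ | ⟨vc, _, rfl⟩
    · calc (insert e (nb H e)).card ≤ k * D := card_nb_le hG he
        _ = 1 * (k * D) := by ring
        _ ≤ D * (k * D) := Nat.mul_le_mul_right _ hD
    · exact card_Sv hG _
  have hxcard : ∀ x ∈ H, ((J.filter (fun j => x ∈ S j)).card : ℝ) ≤ 3 * (k : ℝ) ^ 2 * (D : ℝ) ^ 3 := by
    intro x hx
    have h1 : J.filter (fun j => x ∈ S j) ⊆
        (H.filter (fun e => x ∈ insert e (nb H e))).disjSum
          ((VC H p).filter (fun vc => x ∈ Sv H vc.1)) := by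
      intro j hj
      rw [Finset.mem_filter] at hj
      obtain ⟨hj, hxj⟩ := hj
      rcases Finset.mem_disjSum.1 hj with ⟨e, he, rfl⟩ | ⟨vc, hvc, rfl⟩
      · exact Finset.mem_disjSum.2 (Or.inl ⟨e, Finset.mem_filter.2 ⟨he, hxj⟩, rfl⟩)
      · exact Finset.mem_disjSum.2 (Or.inr ⟨vc, Finset.mem_filter.2 ⟨hvc, hxj⟩, rfl⟩)
    have h2 := Finset.card_le_card h1
    rw [Finset.card_disjSum] at h2
    have h3 : (J.filter (fun j => x ∈ S j)).card ≤ k * D + k * D * k * (D * (2 * D)) :=
      h2.trans (add_le_add (card_edges_at hG hx) (card_VC_at hG hx))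
    have h4 : ((J.filter (fun j => x ∈ S j)).card : ℝ) ≤
        (k : ℝ) * D + k * D * k * (D * (2 * D)) := by exact_mod_cast h3
    have h5 : (k : ℝ) * D ≤ (k : ℝ) ^ 2 * (D : ℝ) ^ 3 := by
      apply mul_le_mul (le_self_pow₀ hk' (by norm_num)) (le_self_pow₀ hD' (by norm_num))
        (by positivity) (by positivity)
    nlinarith
  have hL := lll' hμ J A S ?_ ?_ ?_
  · obtain ⟨ω, hω1, hω2⟩ := hL
    refine ⟨ω, hω1, fun e he => ?_, fun v c hvc => ?_⟩
    · have := hω2 (Sum.inl e) (Finset.mem_disjSum.2 (Or.inl ⟨e, he, rfl⟩))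
      exact not_le.1 this
    · have := hω2 (Sum.inr (v, c)) (Finset.mem_disjSum.2 (Or.inr ⟨(v, c), mem_VC.2 hvc, rfl⟩))
      exact not_le.1 this
  · intro j hj
    rcases Finset.mem_disjSum.1 hj with ⟨e, he, rfl⟩ | ⟨vc, _, rfl⟩
    · intro ω ω' h
      change (WW α H p e ω ≤ 1 - δ) = (WW α H p e ω' ≤ 1 - δ)
      rw [dep_WW e ω ω' h]
    · intro ω ω' h
      change (EE (mu α H p) (ZZ α H p vc.1 vc.2) + δ ≤ ZZ α H p vc.1 vc.2 ω) =
        (EE (mu α H p) (ZZ α H p vc.1 vc.2) + δ ≤ ZZ α H p vc.1 vc.2 ω')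
      rw [dep_ZZ vc.1 vc.2 ω ω' h]
  · intro j hj
    refine (hPP j hj).trans ?_
    have h1 : (1 : ℝ) ≤ 3 * (k : ℝ) ^ 3 * (D : ℝ) ^ 5 := by
      have a1 : (1 : ℝ) ≤ (k : ℝ) ^ 3 := one_le_pow₀ hk'
      have a2 : (1 : ℝ) ≤ (D : ℝ) ^ 5 := one_le_pow₀ hD'
      nlinarith
    nlinarith
  · intro i hi
    calc ∑ x ∈ S i, ∑ j ∈ J.filter (fun j => x ∈ S j), PP (mu α H p) (A j)
        ≤ ∑ _x ∈ S i, 3 * (k : ℝ) ^ 2 * (D : ℝ) ^ 3 * P := by
          refine Finset.sum_le_sum fun x hx => ?_
          calc ∑ j ∈ J.filter (fun j => x ∈ S j), PP (mu α H p) (A j)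
              ≤ ∑ _j ∈ J.filter (fun j => x ∈ S j), P :=
                Finset.sum_le_sum fun j hj => hPP j (Finset.mem_filter.1 hj).1
            _ = ((J.filter (fun j => x ∈ S j)).card : ℝ) * P := by
                rw [Finset.sum_const, nsmul_eq_mul]
            _ ≤ _ := mul_le_mul_of_nonneg_right (hxcard x (hSH i hi hx)) hPpos.le
      _ = ((S i).card : ℝ) * (3 * (k : ℝ) ^ 2 * (D : ℝ) ^ 3 * P) := by
          rw [Finset.sum_const, nsmul_eq_mul]
      _ ≤ ((D : ℝ) * (k * D)) * (3 * (k : ℝ) ^ 2 * (D : ℝ) ^ 3 * P) := by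
          apply mul_le_mul_of_nonneg_right _ (by positivity)
          exact_mod_cast hScard i hi
      _ = 3 * (k : ℝ) ^ 3 * (D : ℝ) ^ 5 * P := by ring
      _ ≤ 1 / 4 := hbig

/-- the parameter `δ` -/
noncomputable def dl (k : ℕ) (α γ : ℝ) : ℝ := α * γ / (256 * k)

theorem dl_pos (hP : Par k γ α σ) : 0 < dl k α γ := by
  unfold dl
  have h1 : (1 : ℝ) ≤ k := by exact_mod_cast hP.k1
  have := hP.α_pos
  have := hP.γ0
  positivity

theorem dl_le (hP : Par k γ α σ) : dl k α γ ≤ α * γ / 256 := by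
  unfold dl
  have h1 : (1 : ℝ) ≤ k := by exact_mod_cast hP.k1
  have h2 := hP.α_pos
  have h3 := hP.γ0
  apply div_le_div_of_nonneg_left (by positivity) (by norm_num)
  linarith

/-- One round. -/
theorem round_step (hG : Good k D K σ H p) (hP : Par k γ α σ) (hσ : 1 / (16 * k) ≤ σ)
    (hK : 1 ≤ K) (hD : 1 ≤ D) (hKD : K / D ≤ γ / 8)
    (hbig : 3 * (k : ℝ) ^ 3 * (D : ℝ) ^ 5 *
      Real.exp (-((dl k α γ) ^ 2 / (4 * AA k K) * D)) ≤ 1 / 4) :
    ∃ (ω : Finset V → Option C) (H' : Finset (Finset V)) (p' : Finset V → C → ℝ),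
      (∀ e ∈ H, ∀ c, ω e = some c → p e c ≠ 0) ∧
      H' ⊆ H ∧ (∀ e ∈ H, e ∉ H' → Clr H e ω) ∧
      Good k D (4 * K) ((1 - α * γ / 4) * σ) H' p' ∧
      ∀ e ∈ H', ∀ c, p' e c ≠ 0 → p e c ≠ 0 ∧ NoC (insert e (nb H e)) c ω := by
  classical
  have hα := hP.α_pos
  have hα8 := hP.α_le
  have hγ0 := hP.γ0
  have hγ1 := hP.γ1
  have hk' : (1 : ℝ) ≤ k := by exact_mod_cast hP.k1
  have hD' : (1 : ℝ) ≤ D := by exact_mod_cast hD
  have hαγ : α * γ ≤ 1 / 8 := by nlinarith
  have hαγ0 : 0 < α * γ := mul_pos hα hγ0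
  have hδpos := dl_pos hP
  have hδle := dl_le hP
  have hδ1 : dl k α γ ≤ 1 / 2 := by linarith
  obtain ⟨ω, hω, hW, hZ⟩ := exists_good hG hP hK hD hδpos.le (by linarith) hbig
  set δ := dl k α γ with hδdef
  refine ⟨ω, H.filter (fun e => ¬ Clr H e ω), fun e c => nw α H p e c ω / WW α H p e ω,
    ?_, Finset.filter_subset _ _, ?_, ?_, ?_⟩
  · intro e he c hc hp
    apply hω e
    rw [hc]
    simp [mu, he, hp]
  · intro e he he'
    by_contra h
    exact he' (Finset.mem_filter.2 ⟨he, h⟩)
  · have hWpos : ∀ e ∈ H, 1 / 2 < WW α H p e ω := fun e he => by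
      linarith [hW e he]
    have hsubH : ∀ e ∈ H.filter (fun e => ¬ Clr H e ω), e ∈ H := fun e he =>
      (Finset.mem_filter.1 he).1
    have hσ0 : 0 < σ := lt_of_lt_of_le (by positivity) hσ
    refine ⟨?_, ?_, ?_, ?_, ?_, ?_, ?_, ?_, ?_⟩
    · intro e he f hf
      exact hG.lin e (hsubH e he) f (hsubH f hf)
    · intro e he
      exact hG.size e (hsubH e he)
    · intro e he
      exact hG.ne e (hsubH e he)
    · intro v
      refine (Finset.card_le_card ?_).trans (hG.deg v)
      intro e he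
      rw [mem_att] at he ⊢
      exact ⟨hsubH e he.1, he.2⟩
    · intro e he c
      exact div_nonneg (nw_nonneg hG hP (hsubH e he) c ω) (by linarith [hWpos e (hsubH e he)])
    · intro e he c
      have h1 := hWpos e (hsubH e he)
      have h2 := nw_le hG hP (hsubH e he) c ω
      rw [div_le_iff₀ (by linarith)]
      calc nw α H p e c ω ≤ 2 * K / D := h2
        _ = 4 * K / D * (1 / 2) := by ring
        _ ≤ 4 * K / D * WW α H p e ω := by
            apply mul_le_mul_of_nonneg_left h1.le
            positivity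
    · intro e he
      have h1 := hWpos e (hsubH e he)
      rw [← Finset.sum_div]
      change WW α H p e ω / WW α H p e ω = 1
      exact div_self (by linarith)
    · intro e he
      refine (Finset.card_le_card ?_).trans (hG.supp e (hsubH e he))
      intro c hc
      rw [Finset.mem_filter] at hc ⊢
      refine ⟨hc.1, fun h => hc.2 ?_⟩
      unfold nw
      rw [h]
      simp
    · intro v c
      have hne : ∀ e ∈ att (H.filter (fun e => ¬ Clr H e ω)) v,
          e ∈ att H v ∧ ¬ Clr H e ω := by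
        intro e he
        rw [mem_att, Finset.mem_filter] at he
        exact ⟨mem_att.2 ⟨he.1.1, he.2⟩, he.1.2⟩
      by_cases hex : ∃ e ∈ att H v, p e c ≠ 0
      · have hZ' := hZ v c hex
        have hE := EE_ZZ_le hG hP hKD v c
        have h1 : ∑ e ∈ att (H.filter (fun e => ¬ Clr H e ω)) v,
            nw α H p e c ω / WW α H p e ω ≤ ZZ α H p v c ω / (1 - δ) := by
          rw [ZZ, Finset.sum_div]
          have h2 : ∀ e ∈ att (H.filter (fun e => ¬ Clr H e ω)) v,
              nw α H p e c ω / WW α H p e ω ≤ zt α H p v c e ω / (1 - δ) := by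
            intro e he
            obtain ⟨h3, h4⟩ := hne e he
            have h5 := hW e (mem_att.1 h3).1
            have h6 : nw α H p e c ω ≤ zt α H p v c e ω := by
              unfold nw zt
              by_cases h7 : NoC (insert e (nb H e)) c ω
              · have h8 : NoC (Fv H v e) c ω := fun f hf => h7 f (Fv_subset v e hf)
                rw [if_pos h7, if_pos ⟨h8, h4⟩]
              · rw [if_neg h7]
                split_ifs
                · exact div_nonneg (hG.nonneg e (mem_att.1 h3).1 c)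
                    (by linarith [rr_ge hG hP (mem_att.1 h3).1 c])
                · exact le_rfl
            have h7 := nw_nonneg hG hP (mem_att.1 h3).1 c ω
            exact div_le_div₀ (h7.trans h6) h6 (by linarith) h5.le
          refine (Finset.sum_le_sum h2).trans ?_
          apply Finset.sum_le_sum_of_subset_of_nonneg
          · intro e he
            exact (hne e he).1
          · intro e he _
            exact div_nonneg (zt_nonneg hG hP he c ω) (by linarith)
        refine h1.trans ?_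
        rw [div_le_iff₀ (by linarith)]
        -- numeric estimate
        have h2 : δ ≤ α * γ * σ / 16 := by
          rw [hδdef]
          unfold dl
          have h3 : α * γ * (1 / (16 * k)) ≤ α * γ * σ := mul_le_mul_of_nonneg_left hσ hαγ0.le
          have h4 : α * γ / (256 * k) = α * γ * (1 / (16 * k)) / 16 := by
            field_simp
            norm_num
          rw [h4]
          linarith
        have h3 : δ ≤ α * γ / 16 := by linarith
        have h4 : (1 - α * γ / 4) * σ * (1 - α * γ / 16) ≤ (1 - α * γ / 4) * σ * (1 - δ) := by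
          apply mul_le_mul_of_nonneg_left (by linarith)
          apply mul_nonneg (by linarith) hσ0.le
        have h5 : 0 ≤ (α * γ) ^ 2 * σ := by positivity
        nlinarith
      · push Not at hex
        rw [Finset.sum_eq_zero]
        · apply mul_nonneg (by linarith) hσ0.le
        · intro e he
          have : p e c = 0 := hex e (hne e he).1
          unfold nw
          rw [this]
          simp
  · intro e he c hc
    have h1 : NoC (insert e (nb H e)) c ω := by
      by_contra h
      apply hc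
      simp only [nw, if_neg h]
      simp
    refine ⟨fun h => hc ?_, h1⟩
    simp only [nw, h]
    simp

end Pool.Agent.Helper61.LE
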