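import Pool.Agent.Helper61.LE.Nib5

/-!
# Final step and iteration
-/

set_option autoImplicit false
set_option linter.unusedSectionVars false

namespace Pool.Agent.Helper61.LE

open Finset

section

variable {V C : Type} [Fintype V] [DecidableEq V] [Fintype C] [DecidableEq C]
variable {k D : ℕ} {K σ α γ : ℝ} {H : Finset (Finset V)} {p : Finset V → C → ℝ}

/-- there is a proper colouring of `H` using colours of non-zero weight -/
def HasCol (H : Finset (Finset V)) (p : Finset V → C → ℝ) : Prop :=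
  ∃ ω : Finset V → Option C, ∀ e ∈ H, ∃ c, p e c ≠ 0 ∧ Cl H e c ω

theorem PP_pair (hG : Good k D K σ H p) {e f : Finset V} (he : e ∈ H) (hf : f ∈ H) (hef : f ≠ e)
    (c : C) : PP (mu 1 H p) (fun ω => ω e = some c ∧ ω f = some c) = p e c * p f c := by
  classical
  have hμ := isProb_mu hG (zero_le_one) (le_refl (1 : ℝ))
  have h1 := PP_forall_mem hμ ({e, f} : Finset (Finset V)) (fun _ a => a = some c)
  have h2 : PP (mu 1 H p) (fun ω => ω e = some c ∧ ω f = some c) =
      PP (mu 1 H p) (fun ω => ∀ i ∈ ({e, f} : Finset (Finset V)), ω i = some c) := by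
    refine PP_congr fun ω => ?_
    simp
  rw [h2, h1, Finset.prod_pair hef.symm, sum_eq hG he, sum_eq hG hf]
  ring

theorem sum_pair_le (hG : Good k D K σ H p) (hσ : 0 ≤ σ) {x : Finset V} (hx : x ∈ H) :
    ∑ f ∈ nb H x, ∑ c, p x c * p f c ≤ k * σ := by
  rw [Finset.sum_comm]
  calc ∑ c, ∑ f ∈ nb H x, p x c * p f c ≤ ∑ c, p x c * (k * σ) := by
        refine Finset.sum_le_sum fun c _ => ?_
        rw [← Finset.mul_sum]
        apply mul_le_mul_of_nonneg_left _ (hG.nonneg x hx c)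
        refine le_trans ?_ (sum_nb_le hG hσ hx c)
        apply Finset.sum_le_sum_of_subset_of_nonneg (Finset.subset_insert _ _)
        intro f hf _
        rcases Finset.mem_insert.1 hf with rfl | hf
        · exact hG.nonneg f hx c
        · exact hG.nonneg f (mem_nb.1 hf).1 c
    _ = k * σ := by rw [← Finset.sum_mul, hG.sum x hx, one_mul]

theorem final_step (hG : Good k D K σ H p) (hk : 1 ≤ k) (hσ0 : 0 ≤ σ) (hσ : σ ≤ 1 / (16 * k)) :
    HasCol H p := by
  classical
  have hk' : (1 : ℝ) ≤ k := by exact_mod_cast hk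
  have hkσ : k * σ ≤ 1 / 16 := by
    calc (k : ℝ) * σ ≤ k * (1 / (16 * k)) := mul_le_mul_of_nonneg_left hσ (by linarith)
      _ = 1 / 16 := by field_simp
  have hμ := isProb_mu hG (zero_le_one) (le_refl (1 : ℝ))
  let J : Finset (Finset V × Finset V × C) :=
    (H ×ˢ (H ×ˢ univ)).filter (fun j => j.2.1 ∈ nb H j.1)
  have hJ : ∀ j ∈ J, j.1 ∈ H ∧ j.2.1 ∈ nb H j.1 := by
    intro j hj
    rw [Finset.mem_filter, Finset.mem_product] at hj
    exact ⟨hj.1.1, hj.2⟩
  have hJ' : ∀ e f c, e ∈ H → f ∈ nb H e → (e, f, c) ∈ J := by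
    intro e f c he hf
    rw [Finset.mem_filter, Finset.mem_product, Finset.mem_product]
    exact ⟨⟨he, (mem_nb.1 hf).1, Finset.mem_univ _⟩, hf⟩
  have hnn : ∀ j ∈ J, 0 ≤ p j.1 j.2.2 * p j.2.1 j.2.2 := fun j hj =>
    mul_nonneg (hG.nonneg _ (hJ j hj).1 _) (hG.nonneg _ (mem_nb.1 (hJ j hj).2).1 _)
  have hPP : ∀ j ∈ J, PP (mu 1 H p) (fun ω => ω j.1 = some j.2.2 ∧ ω j.2.1 = some j.2.2) =
      p j.1 j.2.2 * p j.2.1 j.2.2 := by
    intro j hj
    obtain ⟨h1, h2⟩ := hJ j hj
    obtain ⟨h3, h4, _⟩ := mem_nb.1 h2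
    exact PP_pair hG h1 h3 h4 _
  have hone : ∀ x ∈ H, ∑ j ∈ J.filter (fun j => j.1 = x), p j.1 j.2.2 * p j.2.1 j.2.2 ≤ k * σ := by
    intro x hx
    refine le_trans ?_ (sum_pair_le hG hσ0 hx)
    rw [← Finset.sum_product' (nb H x) univ (fun f c => p x c * p f c)]
    have hinj : Set.InjOn (fun fc : Finset V × C => (x, fc.1, fc.2))
        ((nb H x ×ˢ (univ : Finset C) : Finset (Finset V × C)) : Set (Finset V × C)) := by
      rintro ⟨f, c⟩ _ ⟨f', c'⟩ _ h
      simp only [Prod.mk.injEq, true_and] at h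
      rw [h.1, h.2]
    rw [← Finset.sum_image (f := fun j : Finset V × Finset V × C => p j.1 j.2.2 * p j.2.1 j.2.2)
      hinj]
    apply Finset.sum_le_sum_of_subset_of_nonneg
    · rintro ⟨e, f, c⟩ hj
      rw [Finset.mem_filter] at hj
      obtain ⟨hj, hjx⟩ := hj
      simp only at hjx
      subst hjx
      rw [Finset.mem_image]
      exact ⟨(f, c), Finset.mem_product.2 ⟨(hJ _ hj).2, Finset.mem_univ _⟩, rfl⟩
    · intro j hj _
      rw [Finset.mem_image] at hj
      obtain ⟨⟨f, c⟩, hfc, rfl⟩ := hj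
      rw [Finset.mem_product] at hfc
      exact mul_nonneg (hG.nonneg _ hx _) (hG.nonneg _ (mem_nb.1 hfc.1).1 _)
  have htwo : ∀ x ∈ H, ∑ j ∈ J.filter (fun j => j.2.1 = x), p j.1 j.2.2 * p j.2.1 j.2.2 ≤
      k * σ := by
    intro x hx
    refine le_trans ?_ (sum_pair_le hG hσ0 hx)
    rw [← Finset.sum_product' (nb H x) univ (fun f c => p x c * p f c)]
    have hinj : Set.InjOn (fun fc : Finset V × C => (fc.1, x, fc.2))
        ((nb H x ×ˢ (univ : Finset C) : Finset (Finset V × C)) : Set (Finset V × C)) := by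
      rintro ⟨f, c⟩ _ ⟨f', c'⟩ _ h
      simp only [Prod.mk.injEq, true_and] at h
      rw [h.1, h.2]
    have e1 : ∑ fc ∈ nb H x ×ˢ (univ : Finset C), p x fc.2 * p fc.1 fc.2 =
        ∑ fc ∈ nb H x ×ˢ (univ : Finset C), p fc.1 fc.2 * p x fc.2 :=
      Finset.sum_congr rfl fun fc _ => mul_comm _ _
    rw [e1, ← Finset.sum_image (f := fun j : Finset V × Finset V × C =>
      p j.1 j.2.2 * p j.2.1 j.2.2) hinj]
    apply Finset.sum_le_sum_of_subset_of_nonneg
    · rintro ⟨e, f, c⟩ hj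
      rw [Finset.mem_filter] at hj
      obtain ⟨hj, hjx⟩ := hj
      simp only at hjx
      subst hjx
      rw [Finset.mem_image]
      exact ⟨(e, c), Finset.mem_product.2 ⟨nb_symm (hJ _ hj).1 (hJ _ hj).2, Finset.mem_univ _⟩,
        rfl⟩
    · intro j hj _
      rw [Finset.mem_image] at hj
      obtain ⟨⟨f, c⟩, hfc, rfl⟩ := hj
      rw [Finset.mem_product] at hfc
      exact mul_nonneg (hG.nonneg _ (mem_nb.1 hfc.1).1 _) (hG.nonneg _ hx _)
  have hL := lll' hμ J (fun j ω => ω j.1 = some j.2.2 ∧ ω j.2.1 = some j.2.2)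
    (fun j => {j.1, j.2.1}) ?_ ?_ ?_
  · obtain ⟨ω, hω1, hω2⟩ := hL
    refine ⟨ω, fun e he => ?_⟩
    have h1 := hω1 e
    cases hωe : ω e with
    | none =>
      rw [hωe] at h1
      simp [mu, he] at h1
    | some c =>
      rw [hωe] at h1
      simp only [mu, he, if_true, one_mul] at h1
      refine ⟨c, h1, hωe, fun f hf hfc => ?_⟩
      exact hω2 (e, f, c) (hJ' e f c he hf) ⟨hωe, hfc⟩
  · intro j _ ω ω' h
    have h1 := h j.1 (by simp)
    have h2 := h j.2.1 (by simp)
    dsimp only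
    rw [h1, h2]
  · intro j hj
    rw [hPP j hj]
    have h1 : p j.2.1 j.2.2 ≤ k * σ := by
      refine le_trans ?_ (sum_nb_le hG hσ0 (hJ j hj).1 j.2.2)
      apply Finset.single_le_sum (f := fun f => p f j.2.2)
      · intro f hf
        rcases Finset.mem_insert.1 hf with rfl | hf
        · exact hG.nonneg _ (hJ j hj).1 _
        · exact hG.nonneg f (mem_nb.1 hf).1 _
      · exact Finset.mem_insert_of_mem (hJ j hj).2
    have h2 := hG.le_one (hJ j hj).1 j.2.2
    have h3 := hG.nonneg _ (hJ j hj).1 j.2.2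
    have h4 := hG.nonneg _ (mem_nb.1 (hJ j hj).2).1 j.2.2
    nlinarith
  · intro i hi
    have hSH : ∀ x ∈ ({i.1, i.2.1} : Finset (Finset V)), x ∈ H := by
      intro x hx
      rw [Finset.mem_insert, Finset.mem_singleton] at hx
      rcases hx with rfl | rfl
      · exact (hJ i hi).1
      · exact (mem_nb.1 (hJ i hi).2).1
    calc _ ≤ ∑ _x ∈ ({i.1, i.2.1} : Finset (Finset V)), 2 * (k * σ) := by
          refine Finset.sum_le_sum fun x hx => ?_
          have hxH := hSH x hx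
          calc _ = ∑ j ∈ J.filter (fun j => x ∈ ({j.1, j.2.1} : Finset (Finset V))),
                p j.1 j.2.2 * p j.2.1 j.2.2 :=
                Finset.sum_congr rfl fun j hj => hPP j (Finset.mem_filter.1 hj).1
            _ ≤ ∑ j ∈ J.filter (fun j => j.1 = x) ∪ J.filter (fun j => j.2.1 = x),
                p j.1 j.2.2 * p j.2.1 j.2.2 := by
                apply Finset.sum_le_sum_of_subset_of_nonneg
                · intro j hj
                  rw [Finset.mem_filter, Finset.mem_insert, Finset.mem_singleton] at hj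
                  rcases hj.2 with h | h
                  · exact Finset.mem_union_left _ (Finset.mem_filter.2 ⟨hj.1, h.symm⟩)
                  · exact Finset.mem_union_right _ (Finset.mem_filter.2 ⟨hj.1, h.symm⟩)
                · intro j hj _
                  rcases Finset.mem_union.1 hj with h | h
                  · exact hnn j (Finset.mem_filter.1 h).1
                  · exact hnn j (Finset.mem_filter.1 h).1
            _ ≤ ∑ j ∈ J.filter (fun j => j.1 = x), p j.1 j.2.2 * p j.2.1 j.2.2 +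
                ∑ j ∈ J.filter (fun j => j.2.1 = x), p j.1 j.2.2 * p j.2.1 j.2.2 := by
                rw [← Finset.sum_union_inter]
                have : 0 ≤ ∑ j ∈ J.filter (fun j => j.1 = x) ∩ J.filter (fun j => j.2.1 = x),
                    p j.1 j.2.2 * p j.2.1 j.2.2 :=
                  Finset.sum_nonneg fun j hj =>
                    hnn j (Finset.mem_filter.1 (Finset.mem_inter.1 hj).1).1
                linarith
            _ ≤ k * σ + k * σ := add_le_add (hone x hxH) (htwo x hxH)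
            _ = 2 * (k * σ) := by ring
      _ = (({i.1, i.2.1} : Finset (Finset V)).card : ℝ) * (2 * (k * σ)) := by
          rw [Finset.sum_const, nsmul_eq_mul]
      _ ≤ 2 * (2 * (k * σ)) := by
          apply mul_le_mul_of_nonneg_right _ (by positivity)
          exact_mod_cast Finset.card_le_two
      _ ≤ 1 / 4 := by linarith

/-- combining a round with a colouring of the rest -/
theorem combine {H' : Finset (Finset V)} {p' : Finset V → C → ℝ} {ω : Finset V → Option C}
    (h1 : ∀ e ∈ H, ∀ c, ω e = some c → p e c ≠ 0)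
    (h3 : ∀ e ∈ H, e ∉ H' → Clr H e ω)
    (h4 : ∀ e ∈ H', ∀ c, p' e c ≠ 0 → p e c ≠ 0 ∧ NoC (insert e (nb H e)) c ω)
    (h5 : HasCol H' p') : HasCol H p := by
  classical
  obtain ⟨ω', hω'⟩ := h5
  refine ⟨fun e => if e ∈ H' then ω' e else ω e, fun e he => ?_⟩
  by_cases heH' : e ∈ H'
  · obtain ⟨c, hc, hcl⟩ := hω' e heH'
    obtain ⟨hpc, hno⟩ := h4 e heH' c hc
    refine ⟨c, hpc, ?_, ?_⟩
    · simp only [heH', if_true]
      exact hcl.1
    · intro f hf
      by_cases hfH' : f ∈ H'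
      · simp only [hfH', if_true]
        apply hcl.2 f
        rw [mem_nb] at hf ⊢
        exact ⟨hfH', hf.2⟩
      · simp only [hfH', if_false]
        exact hno f (Finset.mem_insert_of_mem hf)
  · obtain ⟨c, hc1, hc2⟩ := h3 e he heH'
    refine ⟨c, h1 e he c hc1, ?_, ?_⟩
    · simp only [heH', if_false]
      exact hc1
    · intro f hf
      by_cases hfH' : f ∈ H'
      · simp only [hfH', if_true]
        obtain ⟨c', hc', hcl'⟩ := hω' f hfH'
        rw [hcl'.1]
        intro hcc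
        have hcc' : c' = c := Option.some_injective _ hcc
        subst hcc'
        exact (h4 f hfH' c' hc').2 e (Finset.mem_insert_of_mem (nb_symm he hf)) hc1
      · simp only [hfH', if_false]
        exact hc2 f hf

end

/-- large `D` satisfy the numerical conditions -/
theorem exists_large (k : ℕ) (K c γ : ℝ) (hc : 0 < c) (hγ : 0 < γ) :
    ∃ D₀ : ℕ, ∀ D : ℕ, D₀ ≤ D → 1 ≤ D ∧ K / D ≤ γ / 8 ∧
      3 * (k : ℝ) ^ 3 * (D : ℝ) ^ 5 * Real.exp (-(c * D)) ≤ 1 / 4 := by
  have h1 : Filter.Tendsto (fun D : ℕ => K / (D : ℝ)) Filter.atTop (nhds 0) :=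
    tendsto_const_div_atTop_nhds_zero_nat K
  have h2 : ∀ᶠ D : ℕ in Filter.atTop, K / (D : ℝ) ≤ γ / 8 := by
    have : ∀ᶠ D : ℕ in Filter.atTop, K / (D : ℝ) < γ / 8 :=
      h1.eventually_lt_const (by positivity)
    exact this.mono fun _ h => h.le
  have h3 : Filter.Tendsto (fun x : ℝ => x ^ 5 * Real.exp (-x)) Filter.atTop (nhds 0) :=
    Real.tendsto_pow_mul_exp_neg_atTop_nhds_zero 5
  have h4 : Filter.Tendsto (fun D : ℕ => c * (D : ℝ)) Filter.atTop Filter.atTop :=
    Filter.Tendsto.const_mul_atTop hc tendsto_natCast_atTop_atTop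
  have h5 := h3.comp h4
  have h6 : Filter.Tendsto (fun D : ℕ => 3 * (k : ℝ) ^ 3 / c ^ 5 *
      ((c * (D : ℝ)) ^ 5 * Real.exp (-(c * (D : ℝ))))) Filter.atTop (nhds 0) := by
    have := h5.const_mul (3 * (k : ℝ) ^ 3 / c ^ 5)
    simpa using this
  have h7 : ∀ᶠ D : ℕ in Filter.atTop, 3 * (k : ℝ) ^ 3 * (D : ℝ) ^ 5 * Real.exp (-(c * D)) ≤
      1 / 4 := by
    have : ∀ᶠ D : ℕ in Filter.atTop, 3 * (k : ℝ) ^ 3 / c ^ 5 *
      ((c * (D : ℝ)) ^ 5 * Real.exp (-(c * (D : ℝ)))) < 1 / 4 :=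
      h6.eventually_lt_const (by norm_num)
    filter_upwards [this] with D hD
    refine le_trans (le_of_eq ?_) hD.le
    field_simp
  obtain ⟨D₀, hD₀⟩ := Filter.eventually_atTop.1 (h2.and h7)
  refine ⟨max D₀ 1, fun D hD => ⟨(le_max_right _ _).trans hD, ?_⟩⟩
  exact hD₀ D ((le_max_left _ _).trans hD)

theorem core_ind (k : ℕ) (hk : 1 ≤ k) (γ α : ℝ) (hγ0 : 0 < γ) (hγ1 : γ ≤ 1)
    (hα : α = γ / (8 * k)) (m : ℕ) :
    ∀ K : ℝ, 1 ≤ K → ∃ D₀ : ℕ, ∀ D : ℕ, D₀ ≤ D →
      ∀ (V C : Type) [Fintype V] [DecidableEq V] [Fintype C] [DecidableEq C]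
        (H : Finset (Finset V)) (p : Finset V → C → ℝ) (σ : ℝ),
        Good k D K σ H p → 0 ≤ σ → σ ≤ 1 - γ → (1 - α * γ / 4) ^ m * σ ≤ 1 / (16 * k) →
        HasCol H p := by
  induction m with
  | zero =>
    intro K _
    refine ⟨0, ?_⟩
    intro D _ V C _ _ _ _ H p σ hG hσ0 _ hσ
    rw [pow_zero, one_mul] at hσ
    exact final_step hG hk hσ0 hσ
  | succ m ih =>
    intro K hK
    obtain ⟨D₁, hD₁⟩ := ih (4 * K) (by linarith)
    have hP0 : Par k γ α 0 := ⟨hk, hγ0, hγ1, hα, le_rfl, by linarith⟩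
    have hc : 0 < (dl k α γ) ^ 2 / (4 * AA k K) := by
      have h1 := dl_pos hP0
      have h2 := AA_pos hk hK
      positivity
    obtain ⟨D₂, hD₂⟩ := exists_large k K _ γ hc hγ0
    refine ⟨max D₁ D₂, ?_⟩
    intro D hD V C _ _ _ _ H p σ hG hσ0 hσ1 hσ
    by_cases hsmall : σ ≤ 1 / (16 * k)
    · exact final_step hG hk hσ0 hsmall
    · have hP : Par k γ α σ := ⟨hk, hγ0, hγ1, hα, hσ0, hσ1⟩
      obtain ⟨hDone, hKD, hbig⟩ := hD₂ D ((le_max_right _ _).trans hD)
      obtain ⟨ω, H', p', h1, h2, h3, h4, h5⟩ :=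
        round_step hG hP (not_le.1 hsmall).le hK hDone hKD hbig
      have hαγ : α * γ ≤ 1 / 8 := by
        have := hP.α_le
        have := hP.α_pos
        nlinarith
      have hαγ0 : 0 < α * γ := mul_pos hP.α_pos hγ0
      refine combine h1 h3 h5 (hD₁ D ((le_max_left _ _).trans hD) V C H' p' _ h4 ?_ ?_ ?_)
      · exact mul_nonneg (by linarith) hσ0
      · nlinarith
      · rw [pow_succ] at hσ
        rw [← mul_assoc]
        exact hσ

/-- The main nibble theorem: if the weights of each colour at each vertex add up to at most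
`1 - γ` and `D` is large, then there is a proper colouring. -/
theorem core (k : ℕ) (hk : 1 ≤ k) (γ K : ℝ) (hγ0 : 0 < γ) (hγ1 : γ ≤ 1) (hK : 1 ≤ K) :
    ∃ D₀ : ℕ, ∀ D : ℕ, D₀ ≤ D →
      ∀ (V C : Type) [Fintype V] [DecidableEq V] [Fintype C] [DecidableEq C]
        (H : Finset (Finset V)) (p : Finset V → C → ℝ),
        Good k D K (1 - γ) H p → HasCol H p := by
  have hP0 : Par k γ (γ / (8 * k)) 0 := ⟨hk, hγ0, hγ1, rfl, le_rfl, by linarith⟩
  have hk' : (1 : ℝ) ≤ k := by exact_mod_cast hk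
  have hαγ : γ / (8 * k) * γ ≤ 1 / 8 := by
    have := hP0.α_le
    have := hP0.α_pos
    nlinarith
  have hαγ0 : 0 < γ / (8 * k) * γ := mul_pos hP0.α_pos hγ0
  obtain ⟨m, hm⟩ := exists_pow_lt_of_lt_one (show (0 : ℝ) < 1 / (16 * k) by positivity)
    (show 1 - γ / (8 * k) * γ / 4 < 1 by linarith)
  obtain ⟨D₀, hD₀⟩ := core_ind k hk γ _ hγ0 hγ1 rfl m K hK
  refine ⟨D₀, ?_⟩
  intro D hD V C _ _ _ _ H p hG
  refine hD₀ D hD V C H p _ hG (by linarith) le_rfl ?_
  have h1 : 0 ≤ (1 - γ / (8 * k) * γ / 4) ^ m := pow_nonneg (by linarith) _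
  nlinarith

end Pool.Agent.Helper61.LE
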